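import Pool.Graph.R_seed8.H558R2.FL

set_option autoImplicit false

/-!
# Newton's identities for the traces of the powers of a matrix
-/

namespace Pool.Agent.H682.RT

open Matrix Polynomial Pool.Agent.H558R2

variable {m : ℕ}

/-- The coefficients of the characteristic polynomial, from the top. -/
noncomputable def cf (A : Matrix (Fin m) (Fin m) ℝ) (k : ℕ) : ℝ := A.charpoly.coeff (m - k)

lemma cf_zero (A : Matrix (Fin m) (Fin m) ℝ) : cf A 0 = 1 := by
  have h2 := A.charpoly_monic
  rw [Monic, leadingCoeff, charpoly_natDegree_eq_dim, Fintype.card_fin] at h2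
  unfold cf
  rw [Nat.sub_zero]
  exact h2

lemma det_eq_cf (A : Matrix (Fin m) (Fin m) ℝ) : A.det = (-1) ^ m * cf A m := by
  have h := det_eq_sign_charpoly_coeff A
  rw [Fintype.card_fin] at h
  unfold cf
  rw [Nat.sub_self]
  exact h

lemma adjc_eq_sum (A : Matrix (Fin m) (Fin m) ℝ) (k : ℕ) (hk : k < m) :
    adjc A (m - 1 - k) = ∑ i ∈ Finset.range (k + 1), cf A (k - i) • A ^ i := by
  induction k with
  | zero =>
    rw [adjc_rec, adjc_eq_zero A _ (by omega)]
    have h1 : m - 1 - 0 + 1 = m := by omega
    have h2 := cf_zero A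
    unfold cf at h2
    rw [Nat.sub_zero] at h2
    rw [h1, h2]
    simp [cf_zero]
  | succ k ih =>
    have ih' := ih (by omega)
    have e1 : m - 1 - (k + 1) + 1 = m - 1 - k := by omega
    have h1 := adjc_rec A (m - 1 - (k + 1))
    rw [e1, ih'] at h1
    rw [h1, Finset.sum_range_succ' _ (k + 1), Finset.mul_sum]
    congr 1
    · refine Finset.sum_congr rfl fun i _ => ?_
      rw [mul_smul_comm, pow_succ']
      congr 2
      omega
    · rw [pow_zero]
      congr 1
      unfold cf
      congr 1
      omega

/-- **Newton's identities.** -/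
theorem newton (A : Matrix (Fin m) (Fin m) ℝ) (k : ℕ) (hk1 : 1 ≤ k) (hk : k ≤ m) :
    (k : ℝ) * cf A k = - ∑ c ∈ Finset.range k, cf A c * trace (A ^ (k - c)) := by
  -- the traces of the coefficients of the adjugate
  have key : ((m : ℝ) - k) * cf A k = (m : ℝ) * cf A k +
      ∑ i ∈ Finset.range k, cf A (k - (i + 1)) * trace (A ^ (i + 1)) := by
    rcases Nat.lt_or_ge k m with h | h
    · have h1 := adjc_eq_sum A k h
      have h2 := trace_adjc A (m - 1 - k)
      have e1 : m - 1 - k + 1 = m - k := by omega
      rw [e1] at h2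
      have e2 : ((m - 1 - k : ℕ) : ℝ) + 1 = (m : ℝ) - k := by
        have : (m - 1 - k) + 1 + k = m := by omega
        have h3 : ((m - 1 - k : ℕ) : ℝ) + 1 + k = m := by exact_mod_cast this
        linarith
      rw [e2] at h2
      have h4 : A.charpoly.coeff (m - k) = cf A k := rfl
      rw [h4] at h2
      rw [← h2, h1, Finset.sum_range_succ', trace_add, trace_sum]
      simp only [trace_smul, smul_eq_mul, pow_zero, trace_one, Fintype.card_fin, Nat.sub_zero]
      rw [add_comm, mul_comm (cf A k)]
    · have hkm : k = m := le_antisymm hk h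
      subst hkm
      have h1 := adjc_eq_sum A (k - 1) (by omega)
      have h2 := adjc_zero_rec A
      rw [show k - 1 - (k - 1) = 0 by omega] at h1
      rw [h1, show k - 1 + 1 = k by omega, Finset.mul_sum] at h2
      have h3 := congrArg trace h2
      rw [trace_zero, trace_add, trace_sum, trace_smul, trace_one, Fintype.card_fin,
        smul_eq_mul] at h3
      have h4 : A.charpoly.coeff 0 = cf A k := by
        unfold cf
        rw [Nat.sub_self]
      rw [h4] at h3
      have h5 : ∀ i ∈ Finset.range k, trace (A * cf A (k - 1 - i) • A ^ i) =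
          cf A (k - (i + 1)) * trace (A ^ (i + 1)) := by
        intro i _
        rw [mul_smul_comm, trace_smul, smul_eq_mul, pow_succ']
        congr 2
        omega
      rw [Finset.sum_congr rfl h5] at h3
      linarith
  have h6 : ∑ i ∈ Finset.range k, cf A (k - (i + 1)) * trace (A ^ (i + 1)) =
      ∑ c ∈ Finset.range k, cf A c * trace (A ^ (k - c)) := by
    rw [← Finset.sum_range_reflect]
    refine Finset.sum_congr rfl fun c hc => ?_
    have hc' := Finset.mem_range.1 hc
    congr 2
    · omega
    · congr 1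
      omega
  rw [h6] at key
  linarith

/-- The scaled coefficients. -/
noncomputable def df (A : Matrix (Fin m) (Fin m) ℝ) (k : ℕ) : ℝ := (k.factorial : ℝ) * cf A k

lemma df_zero (A : Matrix (Fin m) (Fin m) ℝ) : df A 0 = 1 := by
  unfold df
  rw [cf_zero]
  simp

lemma factorial_eq_prod (c k : ℕ) (h : c < k) (N : ℕ) (hN : k ≤ N) :
    ((k - 1).factorial : ℝ) = (∏ t ∈ Finset.range N, if c < t ∧ t < k then (t : ℝ) else 1) *
      (c.factorial : ℝ) := by
  obtain ⟨d, rfl⟩ : ∃ d, k = c + 1 + d := ⟨k - (c + 1), by omega⟩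
  clear h
  have key : ∀ d, c + 1 + d ≤ N → ((c + d).factorial : ℝ) =
      (∏ t ∈ Finset.range N, if c < t ∧ t < c + 1 + d then (t : ℝ) else 1) * (c.factorial : ℝ) := by
    intro d
    induction d with
    | zero =>
      intro _
      rw [Finset.prod_eq_one, one_mul, Nat.add_zero]
      intro t _
      rw [if_neg (by omega)]
    | succ d ih =>
      intro hd
      have e : ∏ t ∈ Finset.range N, (if c < t ∧ t < c + 1 + (d + 1) then (t : ℝ) else 1) =
          (∏ t ∈ Finset.range N, (if c < t ∧ t < c + 1 + d then (t : ℝ) else 1)) *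
          ∏ t ∈ Finset.range N, (if t = c + 1 + d then (t : ℝ) else 1) := by
        rw [← Finset.prod_mul_distrib]
        refine Finset.prod_congr rfl fun t _ => ?_
        by_cases h1 : c < t ∧ t < c + 1 + d
        · rw [if_pos h1, if_pos (by omega), if_neg (by omega), mul_one]
        · rw [if_neg h1]
          by_cases h2 : t = c + 1 + d
          · rw [if_pos (by omega), if_pos h2, one_mul]
          · rw [if_neg (by omega), if_neg h2, one_mul]
      rw [e, Finset.prod_ite_eq' (Finset.range N) (c + 1 + d) (fun t => (t : ℝ)),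
        if_pos (Finset.mem_range.2 (by omega))]
      have e2 : c + (d + 1) = (c + d) + 1 := by omega
      rw [e2, Nat.factorial_succ, Nat.cast_mul, ih (by omega)]
      have e3 : c + d + 1 = c + 1 + d := by omega
      rw [e3]
      push_cast
      ring
  have := key d hN
  rw [show c + 1 + d - 1 = c + d by omega]
  exact this

/-- The recursion for the scaled coefficients. -/
lemma df_rec (A : Matrix (Fin m) (Fin m) ℝ) (k : ℕ) (hk1 : 1 ≤ k) (hk : k ≤ m) (N : ℕ)
    (hN : k ≤ N) :
    df A k = ∑ c ∈ Finset.range k, (-((∏ t ∈ Finset.range N,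
      if c < t ∧ t < k then (t : ℝ) else 1) * trace (A ^ (k - c)))) * df A c := by
  have h := newton A k hk1 hk
  have e1 : df A k = ((k - 1).factorial : ℝ) * ((k : ℝ) * cf A k) := by
    unfold df
    obtain ⟨j, rfl⟩ : ∃ j, k = j + 1 := ⟨k - 1, by omega⟩
    rw [Nat.factorial_succ]
    simp only [Nat.add_sub_cancel]
    push_cast
    ring
  rw [e1, h, mul_neg, Finset.mul_sum, ← Finset.sum_neg_distrib]
  refine Finset.sum_congr rfl fun c hc => ?_
  rw [factorial_eq_prod c k (Finset.mem_range.1 hc) N hN]
  unfold df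
  ring

end Pool.Agent.H682.RT
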