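import Pool.Agent.H682.RT.Form
import Pool.Agent.H682.RT.Newton

set_option autoImplicit false

/-!
# A formula of depth `O(log² m)` for the determinant
-/

namespace Pool.Agent.H682.RT

open Pool.Agent.H558R2

variable {κ : Type}

namespace Fm

/-- The sum of `2 ^ q` formulas. -/
def sumQ : ℕ → (ℕ → Fm κ) → Fm κ
  | 0, f => f 0
  | q + 1, f => add (sumQ q f) (sumQ q (fun i => f (i + 2 ^ q)))

/-- The product of `2 ^ q` formulas. -/
def prodQ : ℕ → (ℕ → Fm κ) → Fm κ
  | 0, f => f 0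
  | q + 1, f => mul (prodQ q f) (prodQ q (fun i => f (i + 2 ^ q)))

lemma val_sumQ (x : κ → ℝ) (q : ℕ) (f : ℕ → Fm κ) :
    (sumQ q f).val x = ∑ i ∈ Finset.range (2 ^ q), (f i).val x := by
  induction q generalizing f with
  | zero => simp [sumQ]
  | succ q ih =>
    rw [sumQ, val, ih, ih, pow_succ, mul_two, Finset.sum_range_add]
    congr 1
    refine Finset.sum_congr rfl fun i _ => ?_
    rw [add_comm]

lemma val_prodQ (x : κ → ℝ) (q : ℕ) (f : ℕ → Fm κ) :
    (prodQ q f).val x = ∏ i ∈ Finset.range (2 ^ q), (f i).val x := by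
  induction q generalizing f with
  | zero => simp [prodQ]
  | succ q ih =>
    rw [prodQ, val, ih, ih, pow_succ, mul_two, Finset.prod_range_add]
    congr 1
    refine Finset.prod_congr rfl fun i _ => ?_
    rw [add_comm]

/-- Depth, weight and constants of a formula are bounded. -/
def Bd (d w K : ℕ) (f : Fm κ) : Prop := f.depth ≤ d ∧ f.wt ≤ w ∧ f.Cst K

lemma Bd.mono {d w K d' w' : ℕ} {f : Fm κ} (h : Bd d w K f) (hd : d ≤ d') (hw : w ≤ w') :
    Bd d' w' K f := ⟨h.1.trans hd, h.2.1.trans hw, h.2.2⟩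

lemma Bd.neg' {d w K : ℕ} {f : Fm κ} (h : Bd d w K f) : Bd d (w + 1) K (neg f) :=
  ⟨h.1, by simp only [wt]; exact Nat.add_le_add_right h.2.1 1, h.2.2⟩

lemma Bd.add' {d w K : ℕ} {f g : Fm κ} (h : Bd d w K f) (h' : Bd d w K g) :
    Bd (d + 1) (w + 1) K (add f g) :=
  ⟨by simp only [depth]; exact Nat.add_le_add_right (max_le h.1 h'.1) 1,
    by simp only [wt]; exact Nat.add_le_add_right (max_le h.2.1 h'.2.1) 1, h.2.2, h'.2.2⟩

lemma Bd.mul' {d w w' K : ℕ} {f g : Fm κ} (h : Bd d w K f) (h' : Bd d w' K g) :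
    Bd (d + 1) (w + w') K (mul f g) :=
  ⟨by simp only [depth]; exact Nat.add_le_add_right (max_le h.1 h'.1) 1,
    by simp only [wt]; exact Nat.add_le_add h.2.1 h'.2.1, h.2.2, h'.2.2⟩

lemma bd_sumQ {d w K : ℕ} (q : ℕ) (f : ℕ → Fm κ) (h : ∀ i, Bd d w K (f i)) :
    Bd (d + q) (w + q) K (sumQ q f) := by
  induction q generalizing f with
  | zero => exact h 0
  | succ q ih => exact (ih f h).add' (ih _ fun i => h _)

lemma bd_prodQ {d w K : ℕ} (q : ℕ) (f : ℕ → Fm κ) (h : ∀ i, Bd d w K (f i)) :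
    Bd (d + q) (2 ^ q * w) K (prodQ q f) := by
  induction q generalizing f with
  | zero =>
    rw [pow_zero, one_mul]
    exact h 0
  | succ q ih =>
    refine ((ih f h).mul' (ih _ fun i => h _)).mono le_rfl ?_
    rw [pow_succ]
    exact (by ring : 2 ^ q * w + 2 ^ q * w = 2 ^ q * 2 * w).le

/-- The entry `i j` of the power number `k ≤ 2 ^ t` of a matrix of size `2 ^ q`. -/
def powF (q : ℕ) (M : ℕ → ℕ → Fm κ) : ℕ → ℕ → ℕ → ℕ → Fm κ
  | 0, k, i, j => if k = 0 then (if i = j then nat 1 else zero) else M i j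
  | t + 1, k, i, j => sumQ q (fun c => mul (powF q M t (k / 2) i c) (powF q M t (k - k / 2) c j))

/-- The matrix of the values. -/
noncomputable def mv (x : κ → ℝ) (q : ℕ) (M : ℕ → ℕ → Fm κ) :
    Matrix (Fin (2 ^ q)) (Fin (2 ^ q)) ℝ := fun i j => (M i j).val x

lemma val_powF (x : κ → ℝ) (q : ℕ) (M : ℕ → ℕ → Fm κ) (t : ℕ) :
    ∀ (k : ℕ), k ≤ 2 ^ t → ∀ i j : Fin (2 ^ q), (powF q M t k i j).val x = (mv x q M ^ k) i j := by
  induction t with
  | zero =>
    intro k hk i j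
    simp only [powF]
    rcases Nat.eq_zero_or_pos k with rfl | h
    · rw [if_pos rfl, pow_zero, Matrix.one_apply]
      by_cases hij : i = j
      · subst hij
        simp [val]
      · rw [if_neg (fun h => hij (Fin.ext h)), if_neg hij]
        rfl
    · have : k = 1 := by
        rw [pow_zero] at hk
        omega
      subst this
      rw [if_neg (by omega), pow_one]
      rfl
  | succ t ih =>
    intro k hk i j
    rw [pow_succ] at hk
    have h1 : k / 2 ≤ 2 ^ t := by omega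
    have h2 : k - k / 2 ≤ 2 ^ t := by omega
    have h3 : k = k / 2 + (k - k / 2) := by omega
    conv_rhs => rw [h3, pow_add, Matrix.mul_apply]
    simp only [powF]
    rw [val_sumQ, Finset.sum_range]
    refine Finset.sum_congr rfl fun c _ => ?_
    rw [val, ih _ h1, ih _ h2]

lemma bd_powF {d w K : ℕ} (hK : 1 ≤ K) (hw : 1 ≤ w) (q : ℕ) (M : ℕ → ℕ → Fm κ)
    (h : ∀ i j, Bd d w K (M i j)) (t : ℕ) :
    ∀ k i j, Bd (d + t * (q + 1)) (2 ^ t * (w + q) - q) K (powF q M t k i j) := by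
  induction t with
  | zero =>
    intro k i j
    simp only [powF]
    split_ifs
    · exact ⟨by simp [depth], by simp only [wt]; omega, hK⟩
    · exact ⟨by simp [depth], by simp only [wt]; omega, trivial⟩
    · exact (h i j).mono (by omega) (by omega)
  | succ t ih =>
    intro k i j
    simp only [powF]
    have h1 := bd_sumQ q (fun c => mul (powF q M t (k / 2) i c) (powF q M t (k - k / 2) c j))
      (fun c => (ih (k / 2) i c).mul' (ih (k - k / 2) c j))
    refine h1.mono ?_ ?_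
    · exact (by ring : d + t * (q + 1) + 1 + q = d + (t + 1) * (q + 1)).le
    · have h2 : q ≤ 2 ^ t * (w + q) := by
        have := Nat.one_le_two_pow (n := t)
        nlinarith
      have h3 : 2 ^ (t + 1) * (w + q) = 2 ^ t * (w + q) + 2 ^ t * (w + q) := by ring
      omega

/-- The matrix of formulas, extended by zeros. -/
def padF (m : ℕ) (X : Fin m → Fin m → Fm κ) (i j : ℕ) : Fm κ :=
  if h : i < m ∧ j < m then X ⟨i, h.1⟩ ⟨j, h.2⟩ else zero

/-- The trace of a power. -/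
def trF (q : ℕ) (M : ℕ → ℕ → Fm κ) (k : ℕ) : Fm κ := sumQ q (fun a => powF q M q k a a)

/-- The matrix of the recursion. -/
def uF (q : ℕ) (M : ℕ → ℕ → Fm κ) (k c : ℕ) : Fm κ :=
  if c < k ∧ k < 2 ^ q then
    neg (mul (prodQ q (fun t => if c < t ∧ t < k then nat t else nat 1)) (trF q M (k - c)))
  else zero

/-- The determinant times `± m!`. -/
def detF (q m : ℕ) (X : Fin m → Fin m → Fm κ) : Fm κ :=
  sumQ q (fun j => powF q (uF q (padF m X)) q j m 0)

lemma sum_pad {N m : ℕ} (h : m ≤ N) (f : ℕ → ℝ) (hf : ∀ c, m ≤ c → f c = 0) :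
    ∑ c : Fin N, f c = ∑ c : Fin m, f c := by
  rw [Fin.sum_univ_eq_sum_range, Fin.sum_univ_eq_sum_range]
  symm
  apply Finset.sum_subset
  · intro c hc
    exact Finset.mem_range.2 ((Finset.mem_range.1 hc).trans_le h)
  · intro c _ hc
    exact hf c (not_lt.1 fun h' => hc (Finset.mem_range.2 h'))

lemma pad_pow {N m : ℕ} (h : m ≤ N) (P : Matrix (Fin N) (Fin N) ℝ) (X : Matrix (Fin m) (Fin m) ℝ)
    (hP : ∀ i j : Fin N, P i j = if h : (i : ℕ) < m ∧ (j : ℕ) < m then X ⟨i, h.1⟩ ⟨j, h.2⟩ else 0)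
    (k : ℕ) : ∀ i j : Fin N, (P ^ (k + 1)) i j =
      if h : (i : ℕ) < m ∧ (j : ℕ) < m then (X ^ (k + 1)) ⟨i, h.1⟩ ⟨j, h.2⟩ else 0 := by
  induction k with
  | zero =>
    intro i j
    simp only [zero_add, pow_one]
    exact hP i j
  | succ k ih =>
    intro i j
    rw [pow_succ, Matrix.mul_apply]
    obtain ⟨g, hg⟩ : ∃ g : ℕ → ℝ, g = fun c : ℕ =>
        (if h : (i : ℕ) < m ∧ c < m then (X ^ (k + 1)) ⟨i, h.1⟩ ⟨c, h.2⟩ else 0) *
        (if h : c < m ∧ (j : ℕ) < m then X ⟨c, h.1⟩ ⟨j, h.2⟩ else 0) := ⟨_, rfl⟩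
    have e1 : ∀ c : Fin N, (P ^ (k + 1)) i c * P c j = g c := by
      intro c
      rw [ih i c, hP c j, hg]
    refine (Finset.sum_congr rfl fun c _ => e1 c).trans ((sum_pad h g ?_).trans ?_)
    · intro c hc
      rw [hg]
      simp only
      rw [dif_neg (fun h2 : c < m ∧ (j : ℕ) < m => absurd h2.1 (not_lt.2 hc)), mul_zero]
    · by_cases hij : (i : ℕ) < m ∧ (j : ℕ) < m
      · rw [dif_pos hij, pow_succ X, Matrix.mul_apply]
        refine Finset.sum_congr rfl fun c _ => ?_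
        rw [hg]
        simp only
        rw [dif_pos ⟨hij.1, c.2⟩, dif_pos ⟨c.2, hij.2⟩]
      · rw [dif_neg hij]
        apply Finset.sum_eq_zero
        intro c _
        rw [hg]
        simp only
        rcases not_and_or.1 hij with h1 | h1
        · rw [dif_neg (fun h2 => h1 h2.1), zero_mul]
        · rw [dif_neg (fun h2 : (c : ℕ) < m ∧ (j : ℕ) < m => h1 h2.2), mul_zero]

lemma val_trF (x : κ → ℝ) (q m : ℕ) (hq : m ≤ 2 ^ q) (X : Fin m → Fin m → Fm κ) (k : ℕ)
    (hk1 : 1 ≤ k) (hk : k ≤ 2 ^ q) : (trF q (padF m X) k).val x =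
      Matrix.trace ((Matrix.of fun i j => (X i j).val x : Matrix (Fin m) (Fin m) ℝ) ^ k) := by
  unfold trF
  rw [val_sumQ, Finset.sum_range]
  obtain ⟨j, rfl⟩ : ∃ j, k = j + 1 := ⟨k - 1, by omega⟩
  have hP : ∀ a b : Fin (2 ^ q), (mv x q (padF m X)) a b =
      if h : (a : ℕ) < m ∧ (b : ℕ) < m then
        (Matrix.of fun i j => (X i j).val x : Matrix (Fin m) (Fin m) ℝ) ⟨a, h.1⟩ ⟨b, h.2⟩ else 0 := by
    intro a b
    unfold mv padF
    split_ifs
    · rfl
    · rfl
  obtain ⟨g, hg⟩ : ∃ g : ℕ → ℝ, g = fun a : ℕ =>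
      if h : a < m ∧ a < m then ((Matrix.of fun i j => (X i j).val x :
        Matrix (Fin m) (Fin m) ℝ) ^ (j + 1)) ⟨a, h.1⟩ ⟨a, h.2⟩ else 0 := ⟨_, rfl⟩
  have e1 : ∀ a : Fin (2 ^ q), (powF q (padF m X) q (j + 1) a a).val x = g a := by
    intro a
    rw [val_powF x q _ q (j + 1) hk a a, pad_pow hq _ _ hP, hg]
  refine (Finset.sum_congr rfl fun c _ => e1 c).trans ((sum_pad hq g ?_).trans ?_)
  · intro c hc
    rw [hg]
    simp only
    rw [dif_neg (fun h2 : c < m ∧ c < m => absurd h2.1 (not_lt.2 hc))]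
  · unfold Matrix.trace
    refine Finset.sum_congr rfl fun a _ => ?_
    simp only [Matrix.diag_apply]
    rw [hg]
    simp only
    rw [dif_pos ⟨a.2, a.2⟩]

/-- Summation over paths. -/
lemma path_sum {N m : ℕ} (hN : m < N) (U : Matrix (Fin N) (Fin N) ℝ) (u : ℕ → ℕ → ℝ) (d : ℕ → ℝ)
    (h0 : d 0 = 1) (hU : ∀ k c : Fin N, U k c = if (c : ℕ) < k then u k c else 0)
    (hd : ∀ k, 1 ≤ k → k ≤ m → d k = ∑ c ∈ Finset.range k, u k c * d c) (k : ℕ) :
    ∀ (hk : k ≤ m) (J : ℕ), k < J → ∑ j ∈ Finset.range J, (U ^ j) ⟨k, by omega⟩ ⟨0, by omega⟩ = d k := by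
  induction k using Nat.strong_induction_on with
  | _ k ih =>
    intro hk J hJ
    obtain ⟨J, rfl⟩ : ∃ J', J = J' + 1 := ⟨J - 1, by omega⟩
    rw [Finset.sum_range_succ', pow_zero]
    have e1 : ∀ j, (U ^ (j + 1)) ⟨k, by omega⟩ ⟨0, by omega⟩ =
        ∑ c : Fin N, U ⟨k, by omega⟩ c * (U ^ j) c ⟨0, by omega⟩ := by
      intro j
      rw [pow_succ', Matrix.mul_apply]
    obtain ⟨g, hg⟩ : ∃ g : ℕ → ℝ, g = fun c : ℕ => if c < k then u k c * d c else 0 := ⟨_, rfl⟩
    have e2 : ∀ c : Fin N, ∑ j ∈ Finset.range J, U ⟨k, by omega⟩ c * (U ^ j) c ⟨0, by omega⟩ =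
        g (c : ℕ) := by
      intro c
      rw [← Finset.mul_sum, hU, hg]
      simp only
      by_cases hc : (c : ℕ) < k
      · rw [if_pos hc, if_pos hc]
        congr 1
        exact ih c hc (by omega) J (by omega)
      · rw [if_neg hc, if_neg hc, zero_mul]
    have e4 : ∑ j ∈ Finset.range J, (U ^ (j + 1)) ⟨k, by omega⟩ ⟨0, by omega⟩ =
        ∑ c : Fin k, g c := by
      refine (Finset.sum_congr rfl fun j _ => e1 j).trans ?_
      rw [Finset.sum_comm]
      refine (Finset.sum_congr rfl fun c _ => e2 c).trans (sum_pad (m := k) (by omega) g ?_)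
      intro c hc
      rw [hg]
      simp only
      rw [if_neg (not_lt.2 hc)]
    rw [e4]
    rcases Nat.eq_zero_or_pos k with rfl | hk0
    · simp [h0]
    · rw [hd k hk0 hk, Finset.sum_range]
      have e3 : (1 : Matrix (Fin N) (Fin N) ℝ) ⟨k, by omega⟩ ⟨0, by omega⟩ = 0 := by
        rw [Matrix.one_apply_ne]
        intro h
        have := Fin.mk.inj_iff.1 h
        omega
      rw [e3, add_zero]
      refine Finset.sum_congr rfl fun c _ => ?_
      rw [hg]
      simp only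
      rw [if_pos c.2]

lemma val_detF (x : κ → ℝ) (q m : ℕ) (hq : m < 2 ^ q) (X : Fin m → Fin m → Fm κ) :
    (detF q m X).val x = df (Matrix.of fun i j => (X i j).val x) m := by
  unfold detF
  rw [val_sumQ]
  have hmv : ∀ k c : Fin (2 ^ q), (mv x q (uF q (padF m X))) k c =
      if (c : ℕ) < k then (fun k c : ℕ => (-((∏ t ∈ Finset.range (2 ^ q),
        if c < t ∧ t < k then (t : ℝ) else 1) *
        Matrix.trace ((Matrix.of fun i j => (X i j).val x : Matrix (Fin m) (Fin m) ℝ) ^ (k - c)))))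
        (k : ℕ) (c : ℕ) else 0 := by
    intro k c
    unfold mv uF
    by_cases hc : (c : ℕ) < k
    · rw [if_pos ⟨hc, k.2⟩, if_pos hc]
      simp only [val]
      rw [val_prodQ, val_trF x q m hq.le X _ (by omega) (by have := k.2; omega)]
      congr 2
      refine Finset.prod_congr rfl fun t _ => ?_
      split_ifs
      · rfl
      · simp [val]
    · rw [if_neg (fun h => hc h.1), if_neg hc]
      rfl
  have h := path_sum hq (mv x q (uF q (padF m X))) _
    (df (Matrix.of fun i j => (X i j).val x)) (df_zero _) hmv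
    (fun k hk1 hk => df_rec _ k hk1 hk (2 ^ q) (by omega)) m le_rfl (2 ^ q) hq
  rw [← h]
  refine Finset.sum_congr rfl fun j hj => ?_
  exact val_powF x q _ q j (Finset.mem_range.1 hj).le ⟨m, hq⟩ ⟨0, by omega⟩

lemma bd_detF (q m : ℕ) (X : Fin m → Fin m → Fm κ) (hX : ∀ i j, Bd 0 2 (2 ^ q) (X i j)) :
    Bd (2 * (q + 1) ^ 2) (9 * 8 ^ q) (2 ^ q) (detF q m X) := by
  have hK : 1 ≤ 2 ^ q := Nat.one_le_two_pow
  have h0 : ∀ i j, Bd 0 2 (2 ^ q) (padF m X i j) := by
    intro i j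
    unfold padF
    split_ifs
    · exact hX _ _
    · exact ⟨le_rfl, by simp [wt], trivial⟩
  have h1 : ∀ k, Bd (0 + q * (q + 1) + q) (2 ^ q * (2 + q) - q + q) (2 ^ q) (trF q (padF m X) k) :=
    fun k => bd_sumQ q _ fun a => bd_powF hK (by omega) q _ h0 q k a a
  have h2 : ∀ k c, Bd (q * (q + 1) + q + 1) (2 ^ q * (q + 3) + q + 1) (2 ^ q)
      (uF q (padF m X) k c) := by
    intro k c
    unfold uF
    split_ifs with h
    · have h3 : Bd (0 + q) (2 ^ q * 1) (2 ^ q)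
          (prodQ q (fun t => if c < t ∧ t < k then nat t else nat 1) : Fm κ) := by
        apply bd_prodQ
        intro t
        split_ifs with ht
        · exact ⟨le_rfl, by simp [wt], by show t ≤ 2 ^ q; omega⟩
        · exact ⟨le_rfl, by simp [wt], hK⟩
      have h4 := ((h3.mono (d' := 0 + q * (q + 1) + q) (w' := 2 ^ q * 1)
        (by nlinarith [Nat.zero_le (q * (q + 1))]) le_rfl).mul' (h1 (k - c))).neg'
      refine h4.mono (by omega) ?_
      have h5 : q ≤ 2 ^ q * (2 + q) := by nlinarith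
      have h6 : 2 ^ q * (q + 3) = 2 ^ q * 1 + 2 ^ q * (2 + q) := by ring
      omega
    · exact ⟨by simp [depth], by simp [wt], trivial⟩
  have h3 : Bd (q * (q + 1) + q + 1 + q * (q + 1) + q)
      (2 ^ q * (2 ^ q * (q + 3) + q + 1 + q) - q + q) (2 ^ q) (detF q m X) :=
    bd_sumQ q _ fun j => bd_powF hK (by omega) q _ h2 q j m 0
  refine h3.mono ?_ ?_
  · nlinarith
  · have e1 : q ≤ 2 ^ q := Nat.lt_two_pow_self.le
    have e2 : (8 : ℕ) ^ q = 2 ^ q * 2 ^ q * 2 ^ q := by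
      rw [← mul_pow, ← mul_pow]
      norm_num
    have h5 : q ≤ 2 ^ q * (2 ^ q * (q + 3) + q + 1 + q) := by nlinarith
    rw [Nat.sub_add_cancel h5, e2]
    have h6 : 2 ^ q * (q + 3) + q + 1 + q ≤ 9 * (2 ^ q * 2 ^ q) := by
      have a1 : 2 ^ q * q ≤ 2 ^ q * 2 ^ q := Nat.mul_le_mul_left _ e1
      have a2 : 2 ^ q * 1 ≤ 2 ^ q * 2 ^ q := Nat.mul_le_mul_left _ hK
      nlinarith
    calc 2 ^ q * (2 ^ q * (q + 3) + q + 1 + q) ≤ 2 ^ q * (9 * (2 ^ q * 2 ^ q)) :=
          Nat.mul_le_mul_left _ h6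
      _ = _ := by ring

end Fm

end Pool.Agent.H682.RT
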