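import Pool.Agent.H682.RT.Prog

set_option autoImplicit false

/-!
# Arithmetic formulas, and the programs of Ben-Or and Cleve with three registers
-/

namespace Pool.Agent.H682.RT

open Pool.Agent.H558R2

variable {κ R : Type}

/-- Arithmetic formulas with natural numbers as constants. -/
inductive Fm (κ : Type) : Type
  | zero
  | nat (t : ℕ)
  | inp (k : κ)
  | neg (f : Fm κ)
  | add (f g : Fm κ)
  | mul (f g : Fm κ)

namespace Fm

/-- The value. -/
noncomputable def val (x : κ → ℝ) : Fm κ → ℝ
  | zero => 0
  | nat t => t
  | inp k => x k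
  | neg f => - f.val x
  | add f g => f.val x + g.val x
  | mul f g => f.val x * g.val x

/-- The depth. -/
def depth : Fm κ → ℕ
  | zero => 0
  | nat _ => 0
  | inp _ => 0
  | neg f => f.depth
  | add f g => max f.depth g.depth + 1
  | mul f g => max f.depth g.depth + 1

/-- The weight, a bound for the size of the value. -/
def wt : Fm κ → ℕ
  | zero => 1
  | nat _ => 1
  | inp _ => 1
  | neg f => f.wt + 1
  | add f g => max f.wt g.wt + 1
  | mul f g => f.wt + g.wt

/-- All constants are at most `K`. -/
def Cst (K : ℕ) : Fm κ → Prop
  | zero => True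
  | nat t => t ≤ K
  | inp _ => True
  | neg f => f.Cst K
  | add f g => f.Cst K ∧ g.Cst K
  | mul f g => f.Cst K ∧ g.Cst K

lemma one_le_wt (f : Fm κ) : 1 ≤ f.wt := by
  induction f with
  | zero => simp [wt]
  | nat t => simp [wt]
  | inp k => simp [wt]
  | neg f ih => simp [wt]
  | add f g ih1 ih2 => simp [wt]
  | mul f g ih1 ih2 => simp only [wt]; omega

lemma size_val {K : ℕ} {S : ℕ → ℝ → Prop} (hS : Size K S) {x : κ → ℝ} (hx : ∀ k, S 1 (x k))
    (f : Fm κ) (hf : f.Cst K) : S f.wt (f.val x) := by
  induction f with
  | zero => exact hS.mono 0 1 _ (by omega) hS.zero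
  | nat t => exact hS.nat t hf
  | inp k => exact hx k
  | neg f ih =>
    have := hS.sub f.wt 0 (f.val x) (hS.mono 0 _ _ (by omega) hS.zero) (ih hf)
    rw [zero_sub] at this
    exact this
  | add f g ih1 ih2 =>
    exact hS.add _ _ _ (hS.mono _ _ _ (le_max_left _ _) (ih1 hf.1))
      (hS.mono _ _ _ (le_max_right _ _) (ih2 hf.2))
  | mul f g ih1 ih2 => exact hS.mul _ _ _ _ (ih1 hf.1) (ih2 hf.2)

/-- The program which adds `± f` times register `b` to register `a`, with the help of register
`c`. The inputs with `z k = true` are zero. -/
def prog (z : κ → Bool) : Fm κ → Bool → R → R → R → List (Ins κ R)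
  | zero, _, _, _, _ => []
  | nat t, s, a, b, _ => List.replicate t ⟨if s then Op.sub else Op.add, a, .reg a, .reg b⟩
  | inp k, s, a, b, _ => if z k then [] else
      [⟨Op.mul, b, .reg b, .input k⟩, ⟨if s then Op.sub else Op.add, a, .reg a, .reg b⟩,
        ⟨Op.div, b, .reg b, .input k⟩]
  | neg f, s, a, b, c => prog z f (!s) a b c
  | add f g, s, a, b, c => prog z f s a b c ++ prog z g s a b c
  | mul f g, s, a, b, c =>
    prog z g false c b a ++ (prog z f s a c b ++ (prog z g true c b a ++ prog z f (!s) a c b))

lemma length_prog (z : κ → Bool) (K : ℕ) (f : Fm κ) (hf : f.Cst K) :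
    ∀ (s : Bool) (a b c : R), (prog z f s a b c).length ≤ 4 ^ f.depth * (K + 3) := by
  induction f with
  | zero => intro s a b c; simp [prog]
  | nat t =>
    intro s a b c
    have : t ≤ K := hf
    simp only [prog, List.length_replicate, depth, pow_zero, one_mul]
    omega
  | inp k =>
    intro s a b c
    simp only [prog, depth, pow_zero, one_mul]
    by_cases h : z k = true
    · rw [if_pos h]
      simp
    · rw [if_neg h]
      simp only [List.length_cons, List.length_nil]
      omega
  | neg f ih =>
    intro s a b c
    exact ih hf _ _ _ _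
  | add f g ih1 ih2 =>
    intro s a b c
    have h1 := ih1 hf.1 s a b c
    have h2 := ih2 hf.2 s a b c
    have h3 : 4 ^ f.depth ≤ 4 ^ (max f.depth g.depth) := Nat.pow_le_pow_right (by omega) (le_max_left _ _)
    have h4 : 4 ^ g.depth ≤ 4 ^ (max f.depth g.depth) := Nat.pow_le_pow_right (by omega) (le_max_right _ _)
    simp only [prog, List.length_append, depth, pow_succ]
    nlinarith
  | mul f g ih1 ih2 =>
    intro s a b c
    have h1 := ih1 hf.1 s a c b
    have h2 := ih2 hf.2 false c b a
    have h5 := ih1 hf.1 (!s) a c b
    have h6 := ih2 hf.2 true c b a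
    have h3 : 4 ^ f.depth * (K + 3) ≤ 4 ^ (max f.depth g.depth) * (K + 3) :=
      Nat.mul_le_mul_right _ (Nat.pow_le_pow_right (by omega) (le_max_left _ _))
    have h4 : 4 ^ g.depth * (K + 3) ≤ 4 ^ (max f.depth g.depth) * (K + 3) :=
      Nat.mul_le_mul_right _ (Nat.pow_le_pow_right (by omega) (le_max_right _ _))
    simp only [prog, List.length_append, depth, pow_succ]
    calc _ ≤ 4 * (4 ^ (max f.depth g.depth) * (K + 3)) := by omega
      _ = _ := by ring

/-- The sign of the boolean `s`. -/
noncomputable def sg (s : Bool) : ℝ := if s then -1 else 1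

lemma sg_not (s : Bool) : sg (!s) = - sg s := by
  cases s <;> simp [sg]

lemma size_sg {K : ℕ} {S : ℕ → ℝ → Prop} (hS : Size K S) (s : Bool) (e : ℕ) (v w : ℝ)
    (h1 : S e v) (h2 : S e w) : S (e + 1) (v + sg s * w) := by
  cases s
  · have : v + sg false * w = v + w := by simp [sg]
    rw [this]
    exact hS.add _ _ _ h1 h2
  · have : v + sg true * w = v - w := by simp [sg]; ring
    rw [this]
    exact hS.sub _ _ _ h1 h2

/-- The bound for the growth of the sizes during the execution. -/
def bd (f : Fm κ) : ℕ := f.depth * (2 * f.wt + 2) + 2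

lemma bd_mono {d w d' w' : ℕ} (hd : d + 1 ≤ d') (hw : w ≤ w') :
    d * (2 * w + 2) + (2 * w' + 2) ≤ d' * (2 * w' + 2) := by
  calc d * (2 * w + 2) + (2 * w' + 2) ≤ d * (2 * w' + 2) + (2 * w' + 2) := by gcongr
    _ = (d + 1) * (2 * w' + 2) := by ring
    _ ≤ _ := Nat.mul_le_mul_right _ hd

variable [DecidableEq R]

/-- **The programs of Ben-Or and Cleve.** -/
theorem exec_prog {K : ℕ} {S : ℕ → ℝ → Prop} (hS : Size K S) {x : κ → ℝ} (hx : ∀ k, S 1 (x k))
    (z : κ → Bool) (hz : ∀ k, z k = true ↔ x k = 0) (f : Fm κ) (hf : f.Cst K) :
    ∀ (s : Bool) (a b c : R) (ρ : R → ℝ) (E : ℕ), a ≠ b → b ≠ c → a ≠ c → S E (ρ a) → S E (ρ b) →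
      S E (ρ c) → Exec x (S (E + bd f)) (prog z f s a b c) ρ
        (Function.update ρ a (ρ a + sg s * f.val x * ρ b)) := by
  induction f with
  | zero =>
    intro s a b c ρ E hab hbc hac ha hb hc
    simp only [prog, val, mul_zero, zero_mul, add_zero, Function.update_eq_self]
    exact Exec.nil ρ
  | nat t =>
    intro s a b c ρ E hab hbc hac ha hb hc
    have ht : t ≤ K := hf
    have key : ∀ j, j ≤ t → Exec x (S (E + bd (nat t : Fm κ)))
        (List.replicate j ⟨if s then Op.sub else Op.add, a, .reg a, .reg b⟩) ρ
        (Function.update ρ a (ρ a + sg s * (j : ℝ) * ρ b)) := by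
      intro j
      induction j with
      | zero =>
        intro _
        simp only [List.replicate_zero, Nat.cast_zero, mul_zero, zero_mul, add_zero,
          Function.update_eq_self]
        exact Exec.nil ρ
      | succ j ih =>
        intro hj
        rw [List.replicate_succ']
        refine (ih (by omega)).append ?_
        have e1 : Function.update ρ a (ρ a + sg s * ((j + 1 : ℕ) : ℝ) * ρ b) =
            Function.update (Function.update ρ a (ρ a + sg s * (j : ℝ) * ρ b)) a
              (ρ a + sg s * ((j + 1 : ℕ) : ℝ) * ρ b) := by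
          rw [Function.update_idem]
        rw [e1]
        refine Exec.one _ _ _ ?_ ?_ ?_
        · intro h
          cases s <;> simp at h
        · unfold Ins.out
          simp only [Src.val, Function.update_self, Function.update_of_ne hab.symm]
          cases s
          · simp only [sg, Bool.false_eq_true, if_false, Op.eval]
            push_cast
            ring
          · simp only [sg, if_true, Op.eval]
            push_cast
            ring
        · have h1 : S (E + 1) (((j + 1 : ℕ) : ℝ) * ρ b) := by
            have := hS.mul 1 E _ _ (hS.nat (j + 1) (by omega)) hb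
            rwa [add_comm] at this
          have h2 := size_sg hS s (E + 1) _ _ (hS.mono _ _ _ (by omega) ha) h1
          rw [← mul_assoc] at h2
          exact hS.mono _ _ _ (by unfold bd; omega) h2
    exact key t le_rfl
  | inp k =>
    intro s a b c ρ E hab hbc hac ha hb hc
    simp only [prog, val]
    by_cases hk : z k = true
    · rw [if_pos hk, (hz k).1 hk]
      simp only [mul_zero, zero_mul, add_zero, Function.update_eq_self]
      exact Exec.nil ρ
    · rw [if_neg hk]
      have hk0 : x k ≠ 0 := fun h => hk ((hz k).2 h)
      have hb1 : S (E + 1) (ρ b * x k) := hS.mul E 1 _ _ hb (hx k)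
      refine Exec.cons _ _ _ _ (by simp) ?_ ?_
      · exact hS.mono _ _ _ (by unfold bd; omega) hb1
      refine Exec.cons _ _ _ _ ?_ ?_ ?_
      · rintro ⟨h, -⟩
        cases s <;> simp at h
      · have h2 := size_sg hS s (E + 1) (ρ a) (ρ b * x k) (hS.mono _ _ _ (by omega) ha) hb1
        refine hS.mono (E + 2) _ _ (by unfold bd; omega) ?_
        unfold Ins.out
        simp only [Src.val, Function.update_of_ne hab, Function.update_self]
        cases s
        · simpa [sg, Op.eval] using h2
        · simp only [sg, if_true, Op.eval] at h2 ⊢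
          rw [sub_eq_add_neg, ← neg_one_mul]
          exact h2
      refine Exec.cons _ _ _ _ ?_ ?_ ?_
      · rintro ⟨-, h⟩
        exact hk0 h
      · refine hS.mono E _ _ (by omega) ?_
        have : Ins.out x (Function.update (Function.update ρ b (Ins.out x ρ ⟨Op.mul, b, .reg b, .input k⟩)) a
            (Ins.out x (Function.update ρ b (Ins.out x ρ ⟨Op.mul, b, .reg b, .input k⟩))
              ⟨if s then Op.sub else Op.add, a, .reg a, .reg b⟩)) ⟨Op.div, b, .reg b, .input k⟩ = ρ b := by
          unfold Ins.out
          simp only [Src.val, Function.update_of_ne hab.symm, Function.update_self, Op.eval]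
          field_simp
        rw [this]
        exact hb
      · have e1 : Function.update ρ a (ρ a + sg s * x k * ρ b) =
            Function.update (Function.update (Function.update ρ b
              (Ins.out x ρ ⟨Op.mul, b, .reg b, .input k⟩)) a
              (Ins.out x (Function.update ρ b (Ins.out x ρ ⟨Op.mul, b, .reg b, .input k⟩))
                ⟨if s then Op.sub else Op.add, a, .reg a, .reg b⟩)) b
              (Ins.out x (Function.update (Function.update ρ b
                (Ins.out x ρ ⟨Op.mul, b, .reg b, .input k⟩)) a
                (Ins.out x (Function.update ρ b (Ins.out x ρ ⟨Op.mul, b, .reg b, .input k⟩))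
                ⟨if s then Op.sub else Op.add, a, .reg a, .reg b⟩)) ⟨Op.div, b, .reg b, .input k⟩) := by
          ext r
          by_cases hrb : r = b
          · subst hrb
            rw [Function.update_self, Function.update_of_ne hab.symm]
            unfold Ins.out
            simp only [Src.val, Function.update_of_ne hab.symm, Function.update_self, Op.eval]
            field_simp
          · rw [Function.update_of_ne hrb]
            by_cases hra : r = a
            · subst hra
              rw [Function.update_self, Function.update_self]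
              unfold Ins.out
              simp only [Src.val, Function.update_of_ne hab, Function.update_self]
              cases s
              · simp only [sg, Bool.false_eq_true, if_false, Op.eval]
                ring
              · simp only [sg, if_true, Op.eval]
                ring
            · rw [Function.update_of_ne hra, Function.update_of_ne hra, Function.update_of_ne hrb]
        rw [e1]
        exact Exec.nil _
  | neg f ih =>
    intro s a b c ρ E hab hbc hac ha hb hc
    have h := ih hf (!s) a b c ρ E hab hbc hac ha hb hc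
    rw [sg_not] at h
    have e : ρ a + sg s * (neg f).val x * ρ b = ρ a + - sg s * f.val x * ρ b := by
      simp only [val]
      ring
    rw [e]
    refine h.mono fun v hv => hS.mono _ _ _ ?_ hv
    have : f.depth * (2 * f.wt + 2) ≤ f.depth * (2 * (f.wt + 1) + 2) := by gcongr; omega
    unfold bd
    simp only [depth, wt]
    omega
  | add f g ih1 ih2 =>
    intro s a b c ρ E hab hbc hac ha hb hc
    have hb1 : bd f + 1 ≤ bd (add f g) := by
      have := bd_mono (d := f.depth) (w := f.wt) (d' := max f.depth g.depth + 1)
        (w' := max f.wt g.wt + 1) (by have := le_max_left f.depth g.depth; omega) (by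
          have := le_max_left f.wt g.wt; omega)
      unfold bd
      simp only [depth, wt]
      omega
    have hb2 : f.wt + 1 + bd g ≤ bd (add f g) := by
      have := bd_mono (d := g.depth) (w := g.wt) (d' := max f.depth g.depth + 1)
        (w' := max f.wt g.wt + 1) (by have := le_max_right f.depth g.depth; omega) (by
          have := le_max_right f.wt g.wt; omega)
      have h3 := le_max_left f.wt g.wt
      unfold bd
      simp only [depth, wt]
      omega
    have hfv := size_val hS hx f hf.1
    have h1 := ih1 hf.1 s a b c ρ E hab hbc hac ha hb hc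
    set ρ1 := Function.update ρ a (ρ a + sg s * f.val x * ρ b) with hρ1
    have e1a : ρ1 a = ρ a + sg s * f.val x * ρ b := by rw [hρ1, Function.update_self]
    have e1b : ρ1 b = ρ b := by rw [hρ1, Function.update_of_ne hab.symm]
    have e1c : ρ1 c = ρ c := by rw [hρ1, Function.update_of_ne hac.symm]
    have hsz : S (E + f.wt + 1) (ρ1 a) := by
      rw [e1a, mul_assoc]
      refine size_sg hS s _ _ _ (hS.mono _ _ _ (by omega) ha) ?_
      rw [add_comm]
      exact hS.mul _ _ _ _ hfv hb
    have h2 := ih2 hf.2 s a b c ρ1 (E + f.wt + 1) hab hbc hac hsz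
      (by rw [e1b]; exact hS.mono _ _ _ (by omega) hb) (by rw [e1c]; exact hS.mono _ _ _ (by omega) hc)
    have e : Function.update ρ a (ρ a + sg s * (add f g).val x * ρ b) =
        Function.update ρ1 a (ρ1 a + sg s * g.val x * ρ1 b) := by
      rw [e1a, e1b, hρ1, Function.update_idem]
      simp only [val]
      ring_nf
    rw [e]
    exact (h1.mono fun v hv => hS.mono _ _ _ (by omega) hv).append
      (h2.mono fun v hv => hS.mono _ _ _ (by omega) hv)
  | mul f g ih1 ih2 =>
    intro s a b c ρ E hab hbc hac ha hb hc
    have hb1 : bd f + (f.wt + g.wt + 2) ≤ bd (mul f g) := by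
      have := bd_mono (d := f.depth) (w := f.wt) (d' := max f.depth g.depth + 1)
        (w' := f.wt + g.wt) (by have := le_max_left f.depth g.depth; omega) (by omega)
      unfold bd
      simp only [depth, wt]
      omega
    have hb2 : bd g + (f.wt + g.wt + 2) ≤ bd (mul f g) := by
      have := bd_mono (d := g.depth) (w := g.wt) (d' := max f.depth g.depth + 1)
        (w' := f.wt + g.wt) (by have := le_max_right f.depth g.depth; omega) (by omega)
      unfold bd
      simp only [depth, wt]
      omega
    have hfv := size_val hS hx f hf.1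
    have hgv := size_val hS hx g hf.2
    -- step 1
    have h1 := ih2 hf.2 false c b a ρ E hbc.symm hab.symm hac.symm hc hb ha
    set ρ1 := Function.update ρ c (ρ c + sg false * g.val x * ρ b) with hρ1
    have e1a : ρ1 a = ρ a := by rw [hρ1, Function.update_of_ne hac]
    have e1b : ρ1 b = ρ b := by rw [hρ1, Function.update_of_ne hbc]
    have e1c : ρ1 c = ρ c + g.val x * ρ b := by
      rw [hρ1, Function.update_self]
      simp [sg]
    have s1c : S (E + g.wt + 1) (ρ1 c) := by
      rw [e1c]
      refine hS.add _ _ _ (hS.mono _ _ _ (by omega) hc) ?_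
      rw [add_comm]
      exact hS.mul _ _ _ _ hgv hb
    -- step 2
    have h2 := ih1 hf.1 s a c b ρ1 (E + g.wt + 1) hac hbc.symm hab
      (by rw [e1a]; exact hS.mono _ _ _ (by omega) ha) s1c
      (by rw [e1b]; exact hS.mono _ _ _ (by omega) hb)
    set ρ2 := Function.update ρ1 a (ρ1 a + sg s * f.val x * ρ1 c) with hρ2
    have e2a : ρ2 a = ρ a + sg s * f.val x * ρ1 c := by rw [hρ2, Function.update_self, e1a]
    have e2b : ρ2 b = ρ b := by rw [hρ2, Function.update_of_ne hab.symm, e1b]
    have e2c : ρ2 c = ρ c + g.val x * ρ b := by rw [hρ2, Function.update_of_ne hac.symm, e1c]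
    have s2a : S (E + (f.wt + g.wt + 2)) (ρ2 a) := by
      rw [e2a, mul_assoc]
      have := size_sg hS s (f.wt + (E + g.wt + 1)) (ρ a) _ (hS.mono _ _ _ (by omega) ha)
        (hS.mul _ _ _ _ hfv s1c)
      exact hS.mono _ _ _ (by omega) this
    -- step 3
    have h3 := ih2 hf.2 true c b a ρ2 (E + (f.wt + g.wt + 2)) hbc.symm hab.symm hac.symm
      (by rw [e2c, ← e1c]; exact hS.mono _ _ _ (by omega) s1c)
      (by rw [e2b]; exact hS.mono _ _ _ (by omega) hb) s2a
    set ρ3 := Function.update ρ2 c (ρ2 c + sg true * g.val x * ρ2 b) with hρ3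
    have e3a : ρ3 a = ρ2 a := by rw [hρ3, Function.update_of_ne hac]
    have e3b : ρ3 b = ρ b := by rw [hρ3, Function.update_of_ne hbc, e2b]
    have e3c : ρ3 c = ρ c := by
      rw [hρ3, Function.update_self, e2c, e2b]
      simp only [sg, if_true]
      ring
    -- step 4
    have h4 := ih1 hf.1 (!s) a c b ρ3 (E + (f.wt + g.wt + 2)) hac hbc.symm hab
      (by rw [e3a]; exact s2a) (by rw [e3c]; exact hS.mono _ _ _ (by omega) hc)
      (by rw [e3b]; exact hS.mono _ _ _ (by omega) hb)
    have e : Function.update ρ a (ρ a + sg s * (mul f g).val x * ρ b) =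
        Function.update ρ3 a (ρ3 a + sg (!s) * f.val x * ρ3 c) := by
      ext r
      by_cases hra : r = a
      · subst hra
        rw [Function.update_self, Function.update_self, e3a, e2a, e3c, e1c, sg_not]
        simp only [val]
        ring
      · rw [Function.update_of_ne hra, Function.update_of_ne hra]
        by_cases hrc : r = c
        · subst hrc
          rw [e3c]
        · rw [hρ3, Function.update_of_ne hrc, hρ2, Function.update_of_ne hra, hρ1,
            Function.update_of_ne hrc]
    rw [e]
    simp only [prog]
    refine (h1.mono fun v hv => hS.mono _ _ _ (by omega) hv).append ?_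
    refine (h2.mono fun v hv => hS.mono _ _ _ (by omega) hv).append ?_
    exact (h3.mono fun v hv => hS.mono _ _ _ (by omega) hv).append
      (h4.mono fun v hv => hS.mono _ _ _ (by omega) hv)

end Fm

end Pool.Agent.H682.RT
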