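import Pool.Agent.H682.RT.DetForm

set_option autoImplicit false

/-!
# A program of polynomial length with `4 m + 2` registers for the determinant
-/

namespace Pool.Agent.H682.RT

open Pool.Agent.H558R2

variable {κ R : Type}

/-- Entries: zero, one, an input number or its negative. -/
inductive Ent (κ : Type) : Type
  | zero
  | one
  | pos (k : κ)
  | neg (k : κ)

/-- The value of an entry. -/
noncomputable def Ent.val (x : κ → ℝ) : Ent κ → ℝ
  | zero => 0
  | one => 1
  | pos k => x k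
  | neg k => - x k

/-- The entry as a formula. -/
def Ent.toFm : Ent κ → Fm κ
  | zero => Fm.zero
  | one => Fm.nat 1
  | pos k => Fm.inp k
  | neg k => Fm.neg (Fm.inp k)

lemma Ent.val_toFm (x : κ → ℝ) (e : Ent κ) : e.toFm.val x = e.val x := by
  cases e <;> simp [toFm, val, Fm.val]

lemma Ent.bd_toFm (K : ℕ) (hK : 1 ≤ K) (e : Ent κ) : Fm.Bd 0 2 K e.toFm := by
  cases e <;> simp [toFm, Fm.Bd, Fm.depth, Fm.wt, Fm.Cst, hK]

/-! ### Triples -/

/-- Partial correctness triples. -/
def HT [DecidableEq R] (x : κ → ℝ) (G : ℝ → Prop) (P : List (Ins κ R)) (A B : (R → ℝ) → Prop) : Prop :=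
  ∀ ρ, A ρ → ∃ ρ', Exec x G P ρ ρ' ∧ B ρ'

section

variable [DecidableEq R] {x : κ → ℝ} {G : ℝ → Prop}

lemma HT.seq {P Q : List (Ins κ R)} {A B C : (R → ℝ) → Prop} (h : HT x G P A B)
    (h' : HT x G Q B C) : HT x G (P ++ Q) A C := by
  intro ρ hρ
  obtain ⟨ρ', h1, h2⟩ := h ρ hρ
  obtain ⟨ρ'', h3, h4⟩ := h' ρ' h2
  exact ⟨ρ'', h1.append h3, h4⟩

lemma HT.weaken {P : List (Ins κ R)} {A B A' B' : (R → ℝ) → Prop} (h : HT x G P A B)
    (hA : ∀ ρ, A' ρ → A ρ) (hB : ∀ ρ, B ρ → B' ρ) : HT x G P A' B' := by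
  intro ρ hρ
  obtain ⟨ρ', h1, h2⟩ := h ρ (hA ρ hρ)
  exact ⟨ρ', h1, hB _ h2⟩

lemma HT.one {I : Ins κ R} {A B : (R → ℝ) → Prop}
    (h : ∀ ρ, A ρ → (I.op = Op.div → I.snd.val x ρ ≠ 0) ∧ G (I.out x ρ) ∧
      B (Function.update ρ I.dst (I.out x ρ))) : HT x G [I] A B := by
  intro ρ hρ
  obtain ⟨h1, h2, h3⟩ := h ρ hρ
  exact ⟨_, Exec.one I ρ _ h1 rfl h2, h3⟩

lemma HT.cons {I : Ins κ R} {P : List (Ins κ R)} {A B C : (R → ℝ) → Prop}
    (h : ∀ ρ, A ρ → (I.op = Op.div → I.snd.val x ρ ≠ 0) ∧ G (I.out x ρ) ∧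
      B (Function.update ρ I.dst (I.out x ρ))) (h' : HT x G P B C) : HT x G (I :: P) A C :=
  (HT.one h).seq h'

lemma HT.loop {m : ℕ} (P : Fin m → List (Ins κ R)) (I : ℕ → (R → ℝ) → Prop)
    (h : ∀ j : Fin m, HT x G (P j) (I j) (I (j + 1))) :
    HT x G ((List.finRange m).flatMap P) (I 0) (I m) := by
  induction m with
  | zero =>
    intro ρ hρ
    exact ⟨ρ, by simpa using Exec.nil ρ, hρ⟩
  | succ m ih =>
    rw [List.finRange_succ_last, List.flatMap_append, List.flatMap_map]
    refine (ih (fun j => P j.castSucc) (fun j => h j.castSucc)).seq ?_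
    have := h (Fin.last m)
    simpa using this

lemma HT.loopMap {m : ℕ} (P : Fin m → Ins κ R) (I : ℕ → (R → ℝ) → Prop)
    (h : ∀ j : Fin m, HT x G [P j] (I j) (I (j + 1))) :
    HT x G ((List.finRange m).map P) (I 0) (I m) := by
  have := HT.loop (x := x) (G := G) (fun j => [P j]) I h
  rwa [← List.map_eq_flatMap] at this

lemma HT.rep (n : ℕ) (P : Ins κ R) (I : ℕ → (R → ℝ) → Prop)
    (h : ∀ j, j < n → HT x G [P] (I j) (I (j + 1))) :
    HT x G (List.replicate n P) (I 0) (I n) := by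
  induction n with
  | zero =>
    intro ρ hρ
    exact ⟨ρ, by simpa using Exec.nil ρ, hρ⟩
  | succ n ih =>
    rw [List.replicate_succ']
    exact (ih (fun j hj => h j (by omega))).seq (h n (by omega))

end

/-! ### Multiplication of an entry and a register -/

/-- Adds `e` times register `s` to register `d`, with the help of register `t`. -/
def accP (e : Ent κ) (d s t : R) : List (Ins κ R) :=
  match e with
  | .zero => []
  | .one => [⟨Op.add, d, .reg d, .reg s⟩]
  | .pos k => [⟨Op.mul, t, .input k, .reg s⟩, ⟨Op.add, d, .reg d, .reg t⟩]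
  | .neg k => [⟨Op.mul, t, .input k, .reg s⟩, ⟨Op.sub, d, .reg d, .reg t⟩]

lemma length_accP (e : Ent κ) (d s t : R) : (accP e d s t).length ≤ 2 := by
  cases e <;> simp [accP]

lemma accP_spec [DecidableEq R] {x : κ → ℝ} {K : ℕ} {S : ℕ → ℝ → Prop} (hS : Size K S)
    (hx : ∀ k, S 1 (x k)) (E : ℕ) (e : Ent κ) (d s t : R) (hds : d ≠ s) (hdt : d ≠ t) (hst : s ≠ t)
    (f : ℕ) (hf : f + 1 ≤ E) (a b : ℝ) (ha : S f a) (hb' : ∃ g, g + 1 ≤ f ∧ S g b) (A : (R → ℝ) → Prop)
    (hA : ∀ ρ r v, A ρ → (r = d ∨ r = t) → A (Function.update ρ r v)) :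
    HT x (S E) (accP e d s t) (fun ρ => A ρ ∧ ρ d = a ∧ ρ s = b)
      (fun ρ => A ρ ∧ ρ d = a + e.val x * b ∧ ρ s = b) := by
  obtain ⟨g, hg, hb2⟩ := hb'
  cases e with
  | zero =>
    rintro ρ ⟨h1, h2, h3⟩
    exact ⟨ρ, Exec.nil ρ, h1, by simp [Ent.val, h2], h3⟩
  | one =>
    refine HT.one ?_
    rintro ρ ⟨h1, h2, h3⟩
    refine ⟨by simp, ?_, hA _ _ _ h1 (Or.inl rfl), ?_, ?_⟩
    · simp only [Ins.out, Src.val, Op.eval, h2, h3]
      exact hS.mono _ _ _ hf (hS.add _ _ _ ha (hS.mono _ _ _ (by omega) hb2))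
    · simp [Ins.out, Src.val, Op.eval, Ent.val, h2, h3]
    · simp only
      rw [Function.update_of_ne hds.symm, h3]
  | pos k =>
    have hm : S f (x k * b) := hS.mono (1 + g) _ _ (by omega) (hS.mul _ _ _ _ (hx k) hb2)
    refine HT.cons (B := fun ρ => A ρ ∧ ρ d = a ∧ ρ s = b ∧ ρ t = x k * b) ?_ (HT.one ?_)
    · rintro ρ ⟨h1, h2, h3⟩
      refine ⟨by simp, ?_, hA _ _ _ h1 (Or.inr rfl), ?_, ?_, ?_⟩
      · simp only [Ins.out, Src.val, Op.eval, h3]
        exact hS.mono _ _ _ (by omega) hm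
      · simp only
        rw [Function.update_of_ne hdt, h2]
      · simp only
        rw [Function.update_of_ne hst, h3]
      · simp [Ins.out, Src.val, Op.eval, h3]
    · rintro ρ ⟨h1, h2, h3, h4⟩
      refine ⟨by simp, ?_, hA _ _ _ h1 (Or.inl rfl), ?_, ?_⟩
      · simp only [Ins.out, Src.val, Op.eval, h2, h4]
        exact hS.mono _ _ _ hf (hS.add _ _ _ ha hm)
      · simp [Ins.out, Src.val, Op.eval, Ent.val, h2, h4]
      · simp only
        rw [Function.update_of_ne hds.symm, h3]
  | neg k =>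
    have hm : S f (x k * b) := hS.mono (1 + g) _ _ (by omega) (hS.mul _ _ _ _ (hx k) hb2)
    refine HT.cons (B := fun ρ => A ρ ∧ ρ d = a ∧ ρ s = b ∧ ρ t = x k * b) ?_ (HT.one ?_)
    · rintro ρ ⟨h1, h2, h3⟩
      refine ⟨by simp, ?_, hA _ _ _ h1 (Or.inr rfl), ?_, ?_, ?_⟩
      · simp only [Ins.out, Src.val, Op.eval, h3]
        exact hS.mono _ _ _ (by omega) hm
      · simp only
        rw [Function.update_of_ne hdt, h2]
      · simp only
        rw [Function.update_of_ne hst, h3]
      · simp [Ins.out, Src.val, Op.eval, h3]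
    · rintro ρ ⟨h1, h2, h3, h4⟩
      refine ⟨by simp, ?_, hA _ _ _ h1 (Or.inl rfl), ?_, ?_⟩
      · simp only [Ins.out, Src.val, Op.eval, h2, h4]
        exact hS.mono _ _ _ hf (hS.sub _ _ _ ha hm)
      · simp only [Ins.out, Src.val, Op.eval, Ent.val, h2, h4, Function.update_self]
        ring
      · simp only
        rw [Function.update_of_ne hds.symm, h3]

/-! ### The program -/

/-- The registers. -/
abbrev Rg (m : ℕ) : Type := (Fin m ⊕ Fin m) ⊕ ((Fin m ⊕ Fin (m + 1)) ⊕ Unit)

/-- the vector -/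
abbrev rv {m : ℕ} (i : Fin m) : Rg m := Sum.inl (Sum.inl i)
/-- the next vector -/
abbrev rw' {m : ℕ} (i : Fin m) : Rg m := Sum.inl (Sum.inr i)
/-- the traces -/
abbrev rs {m : ℕ} (i : Fin m) : Rg m := Sum.inr (Sum.inl (Sum.inl i))
/-- the coefficients -/
abbrev rc {m : ℕ} (i : Fin (m + 1)) : Rg m := Sum.inr (Sum.inl (Sum.inr i))
/-- the temporary register -/
abbrev rt {m : ℕ} : Rg m := Sum.inr (Sum.inr ())

lemma card_Rg (m : ℕ) : Fintype.card (Rg m) = 4 * m + 2 := by
  simp
  omega

variable {m : ℕ}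

/-- One row of the product of the matrix with the vector. -/
def rowP (X : Fin m → Fin m → Ent κ) (a : Fin m) : List (Ins κ (Rg m)) :=
  ⟨Op.add, rw' a, .zero, .zero⟩ ::
    (List.finRange m).flatMap fun b => accP (X a b) (rw' a) (rv b) rt

/-- The product of the matrix with the vector. -/
def mulP (X : Fin m → Fin m → Ent κ) : List (Ins κ (Rg m)) :=
  (List.finRange m).flatMap (rowP X) ++
    (List.finRange m).map fun a => ⟨Op.add, rv a, .reg (rw' a), .zero⟩

/-- The diagonal entries number `i` of the powers. -/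
def krP (X : Fin m → Fin m → Ent κ) (i : Fin m) : List (Ins κ (Rg m)) :=
  ((List.finRange m).map fun a => ⟨Op.add, rv a, if a = i then .one else .zero, .zero⟩) ++
    (List.finRange m).flatMap fun k => mulP X ++ [⟨Op.add, rs k, .reg (rs k), .reg (rv i)⟩]

/-- The traces of the powers. -/
def trP (X : Fin m → Fin m → Ent κ) : List (Ins κ (Rg m)) :=
  ((List.finRange m).map fun k => ⟨Op.add, rs k, .zero, .zero⟩) ++
    (List.finRange m).flatMap (krP X)

/-- One coefficient. -/
def coP (k : Fin m) : List (Ins κ (Rg m)) :=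
  ⟨Op.add, rc k.succ, .zero, .zero⟩ ::
    (((List.finRange (k + 1)).flatMap fun i : Fin (k + 1) =>
      [(⟨Op.mul, rt, .reg (rs ⟨i, by omega⟩), .reg (rc ⟨k - i, by omega⟩)⟩ : Ins κ (Rg m)),
        ⟨Op.sub, rc k.succ, .reg (rc k.succ), .reg rt⟩]) ++
    (⟨Op.add, rt, .zero, .zero⟩ ::
      (List.replicate (k + 1) ⟨Op.add, rt, .reg rt, .one⟩ ++
        [⟨Op.div, rc k.succ, .reg (rc k.succ), .reg rt⟩])))

/-- The determinant, up to the sign `(-1) ^ m`, in register `rc (Fin.last m)`. -/
def detP (X : Fin m → Fin m → Ent κ) : List (Ins κ (Rg m)) :=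
  trP X ++ (⟨Op.add, rc 0, .one, .zero⟩ :: (List.finRange m).flatMap coP)

/-! ### Lengths -/

lemma length_flatMap_le {β γ : Type} (l : List β) (f : β → List γ) (c : ℕ)
    (h : ∀ b, (f b).length ≤ c) : (l.flatMap f).length ≤ l.length * c := by
  induction l with
  | nil => simp
  | cons b l ih =>
    rw [List.flatMap_cons, List.length_append, List.length_cons, Nat.add_mul, one_mul, add_comm]
    exact Nat.add_le_add ih (h b)

lemma length_detP (X : Fin m → Fin m → Ent κ) :
    (detP X).length ≤ m + m * (m + m * (m * (1 + m * 2) + m + 1)) + (1 + m * (2 * m + 2 * m + 3)) := by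
  have h1 : ∀ a, (rowP X a).length ≤ 1 + m * 2 := by
    intro a
    have := length_flatMap_le (List.finRange m) (fun b => accP (X a b) (rw' a) (rv b) rt) 2
      (fun b => length_accP _ _ _ _)
    rw [List.length_finRange] at this
    simp only [rowP, List.length_cons]
    omega
  have h2 : (mulP X).length ≤ m * (1 + m * 2) + m := by
    have := length_flatMap_le (List.finRange m) (rowP X) _ h1
    rw [List.length_finRange] at this
    simp only [mulP, List.length_append, List.length_map, List.length_finRange]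
    omega
  have h3 : ∀ i, (krP X i).length ≤ m + m * (m * (1 + m * 2) + m + 1) := by
    intro i
    have := length_flatMap_le (List.finRange m)
      (fun k => mulP X ++ [(⟨Op.add, rs k, .reg (rs k), .reg (rv i)⟩ : Ins κ (Rg m))])
      (m * (1 + m * 2) + m + 1) (fun k => by
        simp only [List.length_append, List.length_singleton]
        omega)
    rw [List.length_finRange] at this
    simp only [krP, List.length_append, List.length_map, List.length_finRange]
    omega
  have h4 : (trP X).length ≤ m + m * (m + m * (m * (1 + m * 2) + m + 1)) := by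
    have := length_flatMap_le (List.finRange m) (krP X) _ h3
    rw [List.length_finRange] at this
    simp only [trP, List.length_append, List.length_map, List.length_finRange]
    omega
  have h5 : ∀ k : Fin m, (coP k : List (Ins κ (Rg m))).length ≤ 2 * m + 2 * m + 3 := by
    intro k
    have := length_flatMap_le (List.finRange (k + 1)) (fun i : Fin (k + 1) =>
      [(⟨Op.mul, rt, .reg (rs ⟨i, by omega⟩), .reg (rc ⟨k - i, by omega⟩)⟩ : Ins κ (Rg m)),
        ⟨Op.sub, rc k.succ, .reg (rc k.succ), .reg rt⟩]) 2 (fun i => by simp)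
    rw [List.length_finRange] at this
    simp only [coP, List.length_append, List.length_cons, List.length_replicate, List.length_nil]
    have := k.2
    omega
  have h6 := length_flatMap_le (List.finRange m) (coP : Fin m → List (Ins κ (Rg m))) _ h5
  rw [List.length_finRange] at h6
  simp only [detP, List.length_append, List.length_cons]
  omega

/-! ### Sizes -/

lemma size_sum {K : ℕ} {S : ℕ → ℝ → Prop} (hS : Size K S) (e : ℕ) (f : ℕ → ℝ) (n : ℕ)
    (h : ∀ j < n, S e (f j)) : S (e + n) (∑ j ∈ Finset.range n, f j) := by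
  induction n with
  | zero =>
    rw [Finset.sum_range_zero]
    exact hS.mono 0 _ _ (by omega) hS.zero
  | succ n ih =>
    rw [Finset.sum_range_succ, ← add_assoc]
    exact hS.add _ _ _ (ih fun j hj => h j (by omega)) (hS.mono _ _ _ (by omega) (h n (by omega)))

end Pool.Agent.H682.RT
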