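import Pool.Agent.H682.RT.Kry

set_option autoImplicit false

/-!
# Correctness of the program of polynomial length
-/

namespace Pool.Agent.H682.RT

open Pool.Agent.H558R2

variable {κ : Type} {m : ℕ}

lemma Ent.size {K : ℕ} {S : ℕ → ℝ → Prop} (hS : Size K S) {x : κ → ℝ} (hx : ∀ k, S 1 (x k))
    (e : Ent κ) (f : ℕ) (v : ℝ) (hv : S f v) : S (f + 2) (e.val x * v) := by
  cases e with
  | zero =>
    have : Ent.zero.val x * v = 0 := by simp [val]
    rw [this]
    exact hS.mono 0 _ _ (by omega) hS.zero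
  | one =>
    have : Ent.one.val x * v = v := by simp [val]
    rw [this]
    exact hS.mono _ _ _ (by omega) hv
  | pos k =>
    have := hS.mul 1 f _ _ (hx k) hv
    exact hS.mono _ _ _ (by omega) this
  | neg k =>
    have h1 := hS.mul 1 f _ _ (hx k) hv
    have h2 := hS.sub (1 + f) 0 _ (hS.mono 0 _ _ (by omega) hS.zero) h1
    have : (Ent.neg k).val x * v = 0 - x k * v := by simp [val]
    rw [this]
    exact hS.mono _ _ _ (by omega) h2

lemma size_nsum {K : ℕ} {S : ℕ → ℝ → Prop} (hS : Size K S) (e : ℕ) (f : ℕ → ℝ) (n : ℕ)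
    (h : ∀ j < n, S e (f j)) : S (e + n) (- ∑ j ∈ Finset.range n, f j) := by
  induction n with
  | zero =>
    rw [Finset.sum_range_zero, neg_zero]
    exact hS.mono 0 _ _ (by omega) hS.zero
  | succ n ih =>
    rw [Finset.sum_range_succ, ← add_assoc, neg_add, ← sub_eq_add_neg]
    exact hS.sub _ _ _ (ih fun j hj => h j (by omega)) (hS.mono _ _ _ (by omega) (h n (by omega)))

/-- The values of the entries. -/
noncomputable def xm (x : κ → ℝ) (X : Fin m → Fin m → Ent κ) : Matrix (Fin m) (Fin m) ℝ :=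
  Matrix.of fun i j => (X i j).val x

/-- The contents of the registers for the vector, the traces and the coefficients. -/
def Fr (vv ss : Fin m → ℝ) (cc : Fin (m + 1) → ℝ) (ρ : Rg m → ℝ) : Prop :=
  (∀ i, ρ (rv i) = vv i) ∧ (∀ i, ρ (rs i) = ss i) ∧ ∀ i, ρ (rc i) = cc i

lemma Fr.updw {vv ss : Fin m → ℝ} {cc : Fin (m + 1) → ℝ} {ρ : Rg m → ℝ} (h : Fr vv ss cc ρ)
    (a : Fin m) (v : ℝ) : Fr vv ss cc (Function.update ρ (rw' a) v) := by
  refine ⟨fun i => ?_, fun i => ?_, fun i => ?_⟩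
  · rw [Function.update_of_ne (by simp)]; exact h.1 i
  · rw [Function.update_of_ne (by simp)]; exact h.2.1 i
  · rw [Function.update_of_ne (by simp)]; exact h.2.2 i

lemma Fr.updt {vv ss : Fin m → ℝ} {cc : Fin (m + 1) → ℝ} {ρ : Rg m → ℝ} (h : Fr vv ss cc ρ)
    (v : ℝ) : Fr vv ss cc (Function.update ρ rt v) := by
  refine ⟨fun i => ?_, fun i => ?_, fun i => ?_⟩
  · rw [Function.update_of_ne (by simp)]; exact h.1 i
  · rw [Function.update_of_ne (by simp)]; exact h.2.1 i
  · rw [Function.update_of_ne (by simp)]; exact h.2.2 i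

section

variable {x : κ → ℝ} {K : ℕ} {S : ℕ → ℝ → Prop}

lemma rowP_spec (hS : Size K S) (hx : ∀ k, S 1 (x k)) (X : Fin m → Fin m → Ent κ) (a : Fin m)
    (vv ss : Fin m → ℝ) (cc : Fin (m + 1) → ℝ) (f : ℕ) (hv : ∀ i, S f (vv i)) :
    HT x (S (f + m + 3)) (rowP X a)
      (fun ρ => Fr vv ss cc ρ ∧ ∀ a' : Fin m, (a' : ℕ) < a → ρ (rw' a') = (xm x X).mulVec vv a')
      (fun ρ => Fr vv ss cc ρ ∧ ∀ a' : Fin m, (a' : ℕ) < a + 1 →
        ρ (rw' a') = (xm x X).mulVec vv a') := by
  obtain ⟨g, hg⟩ : ∃ g : ℕ → ℝ, g = fun b : ℕ =>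
      if h : b < m then (X a ⟨b, h⟩).val x * vv ⟨b, h⟩ else 0 := ⟨_, rfl⟩
  have hgv : ∀ b : Fin m, g b = (X a b).val x * vv b := by
    intro b
    rw [hg]
    simp only
    rw [dif_pos b.2]
  have hgs : ∀ j < m, S (f + 2) (g j) := by
    intro j hj
    have := hgv ⟨j, hj⟩
    simp only at this
    rw [this]
    exact Ent.size hS hx _ _ _ (hv _)
  have hsum : ∑ j ∈ Finset.range m, g j = (xm x X).mulVec vv a := by
    rw [Finset.sum_range]
    refine Finset.sum_congr rfl fun b _ => ?_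
    rw [hgv]
    rfl
  set A : (Rg m → ℝ) → Prop := fun ρ => Fr vv ss cc ρ ∧
    ∀ a' : Fin m, (a' : ℕ) < a → ρ (rw' a') = (xm x X).mulVec vv a' with hA
  have hA' : ∀ (ρ : Rg m → ℝ) (r : Rg m) (v : ℝ), A ρ → (r = rw' a ∨ r = rt) →
      A (Function.update ρ r v) := by
    rintro ρ r v ⟨h1, h2⟩ (rfl | rfl)
    · refine ⟨h1.updw a v, fun a' ha' => ?_⟩
      rw [Function.update_of_ne]
      · exact h2 a' ha'
      · intro h
        have : a' = a := by simpa using h
        subst this
        omega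
    · refine ⟨h1.updt v, fun a' ha' => ?_⟩
      rw [Function.update_of_ne (by simp)]
      exact h2 a' ha'
  have hloop := HT.loop (x := x) (G := S (f + m + 3))
    (fun b : Fin m => accP (X a b) (rw' a) (rv b) (rt : Rg m))
    (fun j ρ => A ρ ∧ ρ (rw' a) = ∑ b ∈ Finset.range j, g b) (by
      intro j
      have h := accP_spec hS hx (f + m + 3) (X a j) (rw' a) (rv j) (rt : Rg m) (by simp)
        (by simp) (by simp) (f + 2 + j) (by have := j.2; omega)
        (∑ b ∈ Finset.range j, g b) (vv j)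
        (size_sum hS _ _ _ fun i hi => hgs i (by have := j.2; omega))
        ⟨f, by omega, hv j⟩ A hA'
      refine h.weaken ?_ ?_
      · rintro ρ ⟨h1, h2⟩
        exact ⟨h1, h2, h1.1.1 j⟩
      · rintro ρ ⟨h1, h2, h3⟩
        refine ⟨h1, ?_⟩
        rw [h2, Finset.sum_range_succ, hgv])
  refine HT.cons ?_ (hloop.weaken (fun ρ h => h) ?_)
  · intro ρ hρ
    refine ⟨by simp, ?_, hA' _ _ _ hρ (Or.inl rfl), ?_⟩
    · simp only [Ins.out, Src.val, Op.eval, add_zero]
      exact hS.mono 0 _ _ (by omega) hS.zero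
    · simp [Ins.out, Src.val, Op.eval]
  · rintro ρ ⟨⟨h1, h2⟩, h3⟩
    refine ⟨h1, fun a' ha' => ?_⟩
    rcases Nat.lt_succ_iff_lt_or_eq.1 ha' with h | h
    · exact h2 a' h
    · have : a' = a := Fin.ext h
      subst this
      rw [h3, hsum]

lemma size_mulVec (hS : Size K S) (hx : ∀ k, S 1 (x k)) (X : Fin m → Fin m → Ent κ)
    (vv : Fin m → ℝ) (f : ℕ) (hv : ∀ i, S f (vv i)) (a : Fin m) :
    S (f + m + 2) ((xm x X).mulVec vv a) := by
  obtain ⟨g, hg⟩ : ∃ g : ℕ → ℝ, g = fun b : ℕ =>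
      if h : b < m then (X a ⟨b, h⟩).val x * vv ⟨b, h⟩ else 0 := ⟨_, rfl⟩
  have hgv : ∀ b : Fin m, g b = (X a b).val x * vv b := by
    intro b
    rw [hg]
    simp only
    rw [dif_pos b.2]
  have hgs : ∀ j < m, S (f + 2) (g j) := by
    intro j hj
    have := hgv ⟨j, hj⟩
    simp only at this
    rw [this]
    exact Ent.size hS hx _ _ _ (hv _)
  have hsum : ∑ j ∈ Finset.range m, g j = (xm x X).mulVec vv a := by
    rw [Finset.sum_range]
    refine Finset.sum_congr rfl fun b _ => ?_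
    rw [hgv]
    rfl
  rw [← hsum]
  exact hS.mono _ _ _ (by omega) (size_sum hS _ _ _ hgs)

lemma mulP_spec (hS : Size K S) (hx : ∀ k, S 1 (x k)) (X : Fin m → Fin m → Ent κ)
    (vv ss : Fin m → ℝ) (cc : Fin (m + 1) → ℝ) (f : ℕ) (hv : ∀ i, S f (vv i)) :
    HT x (S (f + m + 3)) (mulP X) (Fr vv ss cc) (Fr ((xm x X).mulVec vv) ss cc) := by
  have h1 := HT.loop (x := x) (G := S (f + m + 3)) (rowP X)
    (fun j ρ => Fr vv ss cc ρ ∧ ∀ a' : Fin m, (a' : ℕ) < j → ρ (rw' a') = (xm x X).mulVec vv a')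
    (fun a => rowP_spec hS hx X a vv ss cc f hv)
  have h2 := HT.loopMap (x := x) (G := S (f + m + 3))
    (fun a : Fin m => (⟨Op.add, rv a, .reg (rw' a), .zero⟩ : Ins κ (Rg m)))
    (fun j ρ => (∀ a : Fin m, (a : ℕ) < j → ρ (rv a) = (xm x X).mulVec vv a) ∧
      (∀ a : Fin m, ρ (rw' a) = (xm x X).mulVec vv a) ∧ (∀ i, ρ (rs i) = ss i) ∧
      ∀ i, ρ (rc i) = cc i) (by
      intro a
      refine HT.one ?_
      rintro ρ ⟨i1, i2, i3, i4⟩
      refine ⟨by simp, ?_, ?_, ?_, ?_, ?_⟩
      · simp only [Ins.out, Src.val, Op.eval, add_zero, i2]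
        exact hS.mono _ _ _ (by omega) (size_mulVec hS hx X vv f hv a)
      · intro b hb
        rcases Nat.lt_succ_iff_lt_or_eq.1 hb with h | h
        · simp only
          rw [Function.update_of_ne]
          · exact i1 b h
          · intro h'
            have : b = a := by simpa using h'
            subst this
            omega
        · have : b = a := Fin.ext h
          subst this
          simp only [Ins.out, Src.val, Op.eval, add_zero, Function.update_self, i2]
      · intro b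
        simp only
        rw [Function.update_of_ne (by simp), i2]
      · intro b
        simp only
        rw [Function.update_of_ne (by simp), i3]
      · intro b
        simp only
        rw [Function.update_of_ne (by simp), i4])
  refine HT.seq (h1.weaken ?_ (fun ρ h => h)) (h2.weaken ?_ ?_)
  · intro ρ h
    exact ⟨h, fun a' ha' => absurd ha' (by omega)⟩
  · rintro ρ ⟨i1, i2⟩
    exact ⟨fun a ha => absurd ha (by omega), fun a => i2 a a.2, i1.2.1, i1.2.2⟩
  · rintro ρ ⟨i1, i2, i3, i4⟩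
    exact ⟨fun a => i1 a a.2, i3, i4⟩

lemma size_pow (hS : Size K S) (hx : ∀ k, S 1 (x k)) (X : Fin m → Fin m → Ent κ) (k : ℕ)
    (a i : Fin m) : S (k * (m + 2)) ((xm x X ^ k) a i) := by
  induction k generalizing a with
  | zero =>
    rw [pow_zero, zero_mul, Matrix.one_apply]
    split_ifs
    · exact hS.one
    · exact hS.zero
  | succ k ih =>
    have h := size_mulVec hS hx X (fun b => (xm x X ^ k) b i) (k * (m + 2)) (fun b => ih b) a
    have e : (xm x X ^ (k + 1)) a i = (xm x X).mulVec (fun b => (xm x X ^ k) b i) a := by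
      rw [pow_succ', Matrix.mul_apply]
      rfl
    rw [e]
    exact hS.mono _ _ _ (by ring_nf; omega) h

lemma krP_spec (hS : Size K S) (hx : ∀ k, S 1 (x k)) (X : Fin m → Fin m → Ent κ) (i : Fin m)
    (E : ℕ) (hE : m * (m + 2) + 1 ≤ E) (ss : Fin m → ℝ) (hs : ∀ k, S (E - 1) (ss k)) :
    HT x (S E) (krP X i) (fun ρ => ∀ k, ρ (rs k) = ss k)
      (fun ρ => ∀ k : Fin m, ρ (rs k) = ss k + (xm x X ^ ((k : ℕ) + 1)) i i) := by
  have hmm : m * (m + 2) = m * m + 2 * m := by ring
  -- initial vector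
  have h1 := HT.loopMap (x := x) (G := S E)
    (fun a : Fin m => (⟨Op.add, rv a, if a = i then .one else .zero, .zero⟩ : Ins κ (Rg m)))
    (fun j ρ => (∀ a : Fin m, (a : ℕ) < j → ρ (rv a) = (xm x X ^ 0) a i) ∧
      (∀ k, ρ (rs k) = ss k)) (by
      intro a
      refine HT.one ?_
      rintro ρ ⟨i1, i2⟩
      have hout : Ins.out x ρ (⟨Op.add, rv a, if a = i then .one else .zero, .zero⟩ : Ins κ (Rg m)) =
          (xm x X ^ 0) a i := by
        simp only [Ins.out, pow_zero, Matrix.one_apply]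
        split_ifs <;> simp [Src.val, Op.eval]
      refine ⟨by simp, ?_, ?_, ?_⟩
      · rw [hout]
        have := size_pow hS hx X 0 a i
        exact hS.mono _ _ _ (by omega) this
      · intro b hb
        rcases Nat.lt_succ_iff_lt_or_eq.1 hb with h | h
        · simp only
          rw [Function.update_of_ne]
          · exact i1 b h
          · intro h'
            have : b = a := by simpa using h'
            subst this
            omega
        · have : b = a := Fin.ext h
          subst this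
          rw [hout]
          simp only [Function.update_self]
      · intro b
        simp only
        rw [Function.update_of_ne (by simp), i2])
  have h2 := HT.loop (x := x) (G := S E)
    (fun k : Fin m => mulP X ++ [(⟨Op.add, rs k, .reg (rs k), .reg (rv i)⟩ : Ins κ (Rg m))])
    (fun j ρ => (∀ a : Fin m, ρ (rv a) = (xm x X ^ j) a i) ∧
      ∀ k : Fin m, ρ (rs k) = ss k + if (k : ℕ) < j then (xm x X ^ ((k : ℕ) + 1)) i i else 0) (by
      intro k ρ hρ
      obtain ⟨i1, i2⟩ := hρ
      have hkm : (k : ℕ) * (m + 2) + (m + 2) ≤ m * (m + 2) := by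
        have := k.2
        nlinarith
      have h3 := mulP_spec hS hx X (fun a => ρ (rv a)) (fun k => ρ (rs k)) (fun k => ρ (rc k))
        ((k : ℕ) * (m + 2)) (by
          intro a
          rw [i1]
          exact size_pow hS hx X k a i)
      obtain ⟨ρ1, j1, j2, j3', j4⟩ := h3 ρ ⟨fun _ => rfl, fun _ => rfl, fun _ => rfl⟩
      have j3 : ∀ l, ρ1 (rs l) = ρ (rs l) := j3'
      have hv1 : ∀ a, ρ1 (rv a) = (xm x X ^ ((k : ℕ) + 1)) a i := by
        intro a
        rw [j2, pow_succ', Matrix.mul_apply]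
        have : (fun a => ρ (rv a)) = fun a => (xm x X ^ (k : ℕ)) a i := funext i1
        rw [this]
        rfl
      have hout : Ins.out x ρ1 (⟨Op.add, rs k, .reg (rs k), .reg (rv i)⟩ : Ins κ (Rg m)) =
          ss k + (xm x X ^ ((k : ℕ) + 1)) i i := by
        simp only [Ins.out, Src.val, Op.eval]
        rw [j3, i2, hv1, if_neg (by omega), add_zero]
      refine ⟨Function.update ρ1 (rs k) (ss k + (xm x X ^ ((k : ℕ) + 1)) i i), ?_, ?_, ?_⟩
      · refine (j1.mono fun v hv => hS.mono _ _ _ (by omega) hv).append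
          (Exec.one _ _ _ (by simp) hout ?_)
        have h5 := size_pow hS hx X ((k : ℕ) + 1) i i
        have h6 := hS.add (E - 1) _ _ (hs k) (hS.mono _ _ _ (by
          have : ((k : ℕ) + 1) * (m + 2) = (k : ℕ) * (m + 2) + (m + 2) := by ring
          omega) h5)
        exact hS.mono _ _ _ (by omega) h6
      · intro a
        rw [Function.update_of_ne (by simp)]
        exact hv1 a
      · intro l
        by_cases hl : l = k
        · subst hl
          rw [Function.update_self, if_pos (by omega)]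
        · rw [Function.update_of_ne (by simpa using hl), j3, i2]
          have hl' : (l : ℕ) ≠ k := fun h => hl (Fin.ext h)
          congr 1
          by_cases h : (l : ℕ) < k
          · rw [if_pos h, if_pos (by omega)]
          · rw [if_neg h, if_neg (by omega)])
  refine HT.seq (h1.weaken ?_ (fun ρ h => h)) (h2.weaken ?_ ?_)
  · intro ρ h
    exact ⟨fun a' ha' => absurd ha' (by omega), h⟩
  · rintro ρ ⟨i1, i2⟩
    refine ⟨fun a => i1 a a.2, fun k => ?_⟩
    rw [i2, if_neg (by omega), add_zero]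
  · rintro ρ ⟨i1, i2⟩ k
    rw [i2, if_pos k.2]

lemma trP_spec (hS : Size K S) (hx : ∀ k, S 1 (x k)) (X : Fin m → Fin m → Ent κ) :
    HT x (S (m * (m + 2) + m + 1)) (trP X) (fun _ => True)
      (fun ρ => ∀ k : Fin m, ρ (rs k) = Matrix.trace (xm x X ^ ((k : ℕ) + 1))) := by
  obtain ⟨g, hg⟩ : ∃ g : ℕ → ℕ → ℝ, g = fun k i : ℕ =>
      if h : i < m then (xm x X ^ (k + 1)) ⟨i, h⟩ ⟨i, h⟩ else 0 := ⟨_, rfl⟩
  have hgv : ∀ (k : ℕ) (i : Fin m), g k i = (xm x X ^ (k + 1)) i i := by
    intro k i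
    rw [hg]
    simp only
    rw [dif_pos i.2]
  have hsz : ∀ (k : Fin m) (j : ℕ), j ≤ m →
      S (m * (m + 2) + j) (∑ i ∈ Finset.range j, g k i) := by
    intro k j hj
    refine size_sum hS _ _ _ fun i hi => ?_
    have := hgv k ⟨i, by omega⟩
    simp only at this
    rw [this]
    refine hS.mono _ _ _ ?_ (size_pow hS hx X _ _ _)
    exact Nat.mul_le_mul_right _ k.2
  have h1 := HT.loopMap (x := x) (G := S (m * (m + 2) + m + 1))
    (fun k : Fin m => (⟨Op.add, rs k, .zero, .zero⟩ : Ins κ (Rg m)))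
    (fun j ρ => ∀ k : Fin m, (k : ℕ) < j → ρ (rs k) = 0) (by
      intro k
      refine HT.one ?_
      rintro ρ i1
      refine ⟨by simp, ?_, ?_⟩
      · simp only [Ins.out, Src.val, Op.eval, add_zero]
        exact hS.mono 0 _ _ (by omega) hS.zero
      · intro l hl
        by_cases h : l = k
        · subst h
          simp [Ins.out, Src.val, Op.eval]
        · simp only
          rw [Function.update_of_ne (by simpa using h)]
          have hl' : (l : ℕ) ≠ k := fun h' => h (Fin.ext h')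
          exact i1 l (by omega))
  have h2 := HT.loop (x := x) (G := S (m * (m + 2) + m + 1)) (krP X)
    (fun j ρ => ∀ k : Fin m, ρ (rs k) = ∑ i ∈ Finset.range j, g k i) (by
      intro i
      have h3 := krP_spec hS hx X i (m * (m + 2) + m + 1) (by omega)
        (fun k => ∑ i ∈ Finset.range i, g k i) (fun k =>
          hS.mono _ _ _ (by have := i.2; omega) (hsz k i i.2.le))
      refine h3.weaken (fun ρ h => h) ?_
      intro ρ h k
      rw [h, Finset.sum_range_succ, hgv])
  refine HT.seq (h1.weaken (fun ρ _ k hk => absurd hk (by omega)) (fun ρ h => h)) (h2.weaken ?_ ?_)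
  · intro ρ h k
    rw [Finset.sum_range_zero]
    exact h k k.2
  · intro ρ h k
    rw [h, Finset.sum_range]
    refine Finset.sum_congr rfl fun i _ => ?_
    rw [hgv]
    rfl

/-- The size of the traces. -/
def tz (m : ℕ) : ℕ := m * (m + 2) + m

lemma size_trace (hS : Size K S) (hx : ∀ k, S 1 (x k)) (X : Fin m → Fin m → Ent κ) (k : Fin m) :
    S (tz m) (Matrix.trace (xm x X ^ ((k : ℕ) + 1))) := by
  obtain ⟨g, hg⟩ : ∃ g : ℕ → ℝ, g = fun i : ℕ =>
      if h : i < m then (xm x X ^ ((k : ℕ) + 1)) ⟨i, h⟩ ⟨i, h⟩ else 0 := ⟨_, rfl⟩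
  have hgv : ∀ (i : Fin m), g i = (xm x X ^ ((k : ℕ) + 1)) i i := by
    intro i
    rw [hg]
    simp only
    rw [dif_pos i.2]
  have e : Matrix.trace (xm x X ^ ((k : ℕ) + 1)) = ∑ i ∈ Finset.range m, g i := by
    rw [Finset.sum_range]
    refine Finset.sum_congr rfl fun i _ => ?_
    rw [hgv]
    rfl
  rw [e]
  refine size_sum hS _ _ _ fun i hi => ?_
  have := hgv ⟨i, hi⟩
  simp only at this
  rw [this]
  refine hS.mono _ _ _ ?_ (size_pow hS hx X _ _ _)
  exact Nat.mul_le_mul_right _ k.2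

/-- The sum in Newton's identity. -/
lemma newton' (A : Matrix (Fin m) (Fin m) ℝ) (k : Fin m) :
    cf A ((k : ℕ) + 1) = (- ∑ i ∈ Finset.range ((k : ℕ) + 1),
      Matrix.trace (A ^ (i + 1)) * cf A (k - i)) / (((k : ℕ) + 1 : ℕ) : ℝ) := by
  have h := newton A ((k : ℕ) + 1) (by omega) k.2
  have h0 : (((k : ℕ) + 1 : ℕ) : ℝ) ≠ 0 := by positivity
  rw [eq_div_iff h0, mul_comm, h]
  congr 1
  rw [← Finset.sum_range_reflect]
  refine Finset.sum_congr rfl fun c hc => ?_
  have hc' := Finset.mem_range.1 hc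
  rw [mul_comm]
  congr 2
  congr 1
  omega

lemma size_cf (hS : Size K S) (hmK : m ≤ K) (hx : ∀ k, S 1 (x k)) (X : Fin m → Fin m → Ent κ)
    (k : ℕ) : k ≤ m → S (k * (tz m + m + 3)) (cf (xm x X) k) := by
  induction k using Nat.strong_induction_on with
  | _ k ih =>
    intro hk
    rcases Nat.eq_zero_or_pos k with rfl | hk0
    · rw [cf_zero, zero_mul]
      exact hS.one
    · obtain ⟨k, rfl⟩ : ∃ k', k = k' + 1 := ⟨k - 1, by omega⟩
      rw [newton' (xm x X) ⟨k, by omega⟩]
      simp only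
      have h1 : S (tz m + k * (tz m + m + 3) + (k + 1)) (- ∑ i ∈ Finset.range (k + 1),
          Matrix.trace (xm x X ^ (i + 1)) * cf (xm x X) (k - i)) := by
        refine size_nsum hS _ _ _ fun i hi => ?_
        refine hS.mul _ _ _ _ (size_trace hS hx X ⟨i, by omega⟩) ?_
        refine hS.mono _ _ _ ?_ (ih (k - i) (by omega) (by omega))
        exact Nat.mul_le_mul_right _ (Nat.sub_le k i)
      have h2 := hS.div _ _ (k + 1) (by omega) (by omega) h1
      refine hS.mono _ _ _ ?_ h2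
      have : (k + 1) * (tz m + m + 3) = k * (tz m + m + 3) + (tz m + m + 3) := by ring
      omega

lemma coP_spec (hS : Size K S) (hmK : m ≤ K) (hx : ∀ k, S 1 (x k)) (X : Fin m → Fin m → Ent κ)
    (k : Fin m) : HT x (S ((m + 1) * (tz m + m + 3))) (coP k)
      (fun ρ => (∀ i : Fin m, ρ (rs i) = Matrix.trace (xm x X ^ ((i : ℕ) + 1))) ∧
        ∀ j : Fin (m + 1), (j : ℕ) ≤ k → ρ (rc j) = cf (xm x X) j)
      (fun ρ => (∀ i : Fin m, ρ (rs i) = Matrix.trace (xm x X ^ ((i : ℕ) + 1))) ∧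
        ∀ j : Fin (m + 1), (j : ℕ) ≤ k + 1 → ρ (rc j) = cf (xm x X) j) := by
  have hk := k.2
  have hkm : (k : ℕ) * (tz m + m + 3) + (tz m + m + 3) ≤ (m + 1) * (tz m + m + 3) := by
    nlinarith
  set A : (Rg m → ℝ) → Prop := fun ρ =>
    (∀ i : Fin m, ρ (rs i) = Matrix.trace (xm x X ^ ((i : ℕ) + 1))) ∧
        ∀ j : Fin (m + 1), (j : ℕ) ≤ k → ρ (rc j) = cf (xm x X) j with hA
  have hA1 : ∀ (ρ : Rg m → ℝ) (v : ℝ), A ρ → A (Function.update ρ (rc k.succ) v) := by
    rintro ρ v ⟨h1, h2⟩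
    refine ⟨fun i => ?_, fun j hj => ?_⟩
    · rw [Function.update_of_ne (by simp), h1]
    · rw [Function.update_of_ne, h2 j hj]
      intro h
      have : j = k.succ := by simpa using h
      subst this
      simp at hj
  have hA2 : ∀ (ρ : Rg m → ℝ) (v : ℝ), A ρ → A (Function.update ρ rt v) := by
    rintro ρ v ⟨h1, h2⟩
    refine ⟨fun i => ?_, fun j hj => ?_⟩
    · rw [Function.update_of_ne (by simp), h1]
    · rw [Function.update_of_ne (by simp), h2 j hj]
  obtain ⟨h, hh⟩ : ∃ h : ℕ → ℝ, h = fun i : ℕ =>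
      Matrix.trace (xm x X ^ (i + 1)) * cf (xm x X) (k - i) := ⟨_, rfl⟩
  have hhs : ∀ i < (k : ℕ) + 1, S (tz m + k * (tz m + m + 3)) (h i) := by
    intro i hi
    rw [hh]
    refine hS.mul _ _ _ _ (size_trace hS hx X ⟨i, by omega⟩) ?_
    refine hS.mono _ _ _ ?_ (size_cf hS hmK hx X (k - i) (by omega))
    exact Nat.mul_le_mul_right _ (Nat.sub_le k i)
  -- the loop
  have h1 := HT.loop (x := x) (G := S ((m + 1) * (tz m + m + 3)))
    (fun i : Fin ((k : ℕ) + 1) =>
      [(⟨Op.mul, rt, .reg (rs ⟨i, by omega⟩), .reg (rc ⟨k - i, by omega⟩)⟩ : Ins κ (Rg m)),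
        ⟨Op.sub, rc k.succ, .reg (rc k.succ), .reg rt⟩])
    (fun j ρ => A ρ ∧ ρ (rc k.succ) = - ∑ i ∈ Finset.range j, h i) (by
      intro i
      have hi := i.2
      refine HT.cons (B := fun ρ => A ρ ∧ ρ (rc k.succ) = - ∑ i ∈ Finset.range i, h i ∧
        ρ rt = h i) ?_ (HT.one ?_)
      · rintro ρ ⟨i1, i2⟩
        have hout : Ins.out x ρ (⟨Op.mul, rt, .reg (rs ⟨i, by omega⟩),
            .reg (rc ⟨k - i, by omega⟩)⟩ : Ins κ (Rg m)) = h i := by
          simp only [Ins.out, Src.val, Op.eval]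
          rw [i1.1, i1.2 ⟨k - i, by omega⟩ (by simp), hh]
        refine ⟨by simp, ?_, ?_, ?_, ?_⟩
        · rw [hout]
          exact hS.mono _ _ _ (by omega) (hhs i hi)
        · rw [hout]
          exact hA2 _ _ i1
        · simp only
          rw [Function.update_of_ne (by simp), i2]
        · simp only
          rw [hout, Function.update_self]
      · rintro ρ ⟨i1, i2, i3⟩
        have hout : Ins.out x ρ (⟨Op.sub, rc k.succ, .reg (rc k.succ), .reg rt⟩ : Ins κ (Rg m)) =
            - ∑ i ∈ Finset.range (i + 1), h i := by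
          simp only [Ins.out, Src.val, Op.eval]
          rw [i2, i3, Finset.sum_range_succ]
          ring
        refine ⟨by simp, ?_, ?_, ?_⟩
        · rw [hout]
          refine hS.mono _ _ _ ?_ (size_nsum hS (tz m + k * (tz m + m + 3)) h (i + 1)
            fun j hj => hhs j (by omega))
          omega
        · exact hA1 _ _ i1
        · simp only
          rw [hout, Function.update_self])
  -- the counter
  have h2 := HT.rep (x := x) (G := S ((m + 1) * (tz m + m + 3))) ((k : ℕ) + 1)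
    (⟨Op.add, rt, .reg rt, .one⟩ : Ins κ (Rg m))
    (fun j ρ => (A ρ ∧ ρ (rc k.succ) = - ∑ i ∈ Finset.range ((k : ℕ) + 1), h i) ∧
      ρ rt = (j : ℝ)) (by
      intro j hj
      refine HT.one ?_
      rintro ρ ⟨⟨i1, i2⟩, i3⟩
      have hout : Ins.out x ρ (⟨Op.add, rt, .reg rt, .one⟩ : Ins κ (Rg m)) = ((j + 1 : ℕ) : ℝ) := by
        simp only [Ins.out, Src.val, Op.eval]
        rw [i3]
        push_cast
        ring
      refine ⟨by simp, ?_, ⟨?_, ?_⟩, ?_⟩
      · rw [hout]
        exact hS.mono 1 _ _ (by nlinarith) (hS.nat _ (by omega))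
      · exact hA2 _ _ i1
      · simp only
        rw [Function.update_of_ne (by simp), i2]
      · simp only
        rw [hout, Function.update_self])
  refine HT.cons (B := fun ρ => A ρ ∧ ρ (rc k.succ) = - ∑ i ∈ Finset.range 0, h i) ?_
    (HT.seq h1 (HT.cons (B := fun ρ => (A ρ ∧
      ρ (rc k.succ) = - ∑ i ∈ Finset.range ((k : ℕ) + 1), h i) ∧ ρ rt = ((0 : ℕ) : ℝ)) ?_
      (HT.seq h2 (HT.one ?_))))
  · intro ρ i1
    refine ⟨by simp, ?_, hA1 _ _ i1, ?_⟩
    · simp only [Ins.out, Src.val, Op.eval, add_zero]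
      exact hS.mono 0 _ _ (by omega) hS.zero
    · simp [Ins.out, Src.val, Op.eval]
  · rintro ρ ⟨i1, i2⟩
    refine ⟨by simp, ?_, ⟨hA2 _ _ i1, ?_⟩, ?_⟩
    · simp only [Ins.out, Src.val, Op.eval, add_zero]
      exact hS.mono 0 _ _ (by omega) hS.zero
    · simp only
      rw [Function.update_of_ne (by simp), i2]
    · simp [Ins.out, Src.val, Op.eval]
  · rintro ρ ⟨⟨i1, i2⟩, i3⟩
    have hout : Ins.out x ρ (⟨Op.div, rc k.succ, .reg (rc k.succ), .reg rt⟩ : Ins κ (Rg m)) =
        cf (xm x X) ((k : ℕ) + 1) := by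
      simp only [Ins.out, Src.val, Op.eval]
      rw [i2, i3, newton' (xm x X) k, hh]
    refine ⟨?_, ?_, ?_, ?_⟩
    · intro _
      simp only [Src.val]
      rw [i3]
      positivity
    · rw [hout]
      refine hS.mono _ _ _ ?_ (size_cf hS hmK hx X (k + 1) (by omega))
      exact Nat.mul_le_mul_right _ (by omega)
    · exact (hA1 _ _ i1).1
    · intro j hj
      rcases Nat.lt_succ_iff_lt_or_eq.1 (Nat.lt_succ_of_le hj) with h' | h'
      · exact (hA1 _ _ i1).2 j (by omega)
      · have : j = k.succ := Fin.ext (by simpa using h')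
        subst this
        simp only
        rw [hout, Function.update_self]
        simp

theorem detP_spec (hS : Size K S) (hmK : m ≤ K) (hx : ∀ k, S 1 (x k)) (X : Fin m → Fin m → Ent κ) :
    HT x (S ((m + 1) * (tz m + m + 3))) (detP X) (fun _ => True)
      (fun ρ => ρ (rc (Fin.last m)) = cf (xm x X) m) := by
  have hm1 : tz m + m + 3 ≤ (m + 1) * (tz m + m + 3) := by nlinarith
  have h1 : HT x (S ((m + 1) * (tz m + m + 3))) (trP X) (fun _ => True)
      (fun ρ => ∀ k : Fin m, ρ (rs k) = Matrix.trace (xm x X ^ ((k : ℕ) + 1))) := by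
    intro ρ hρ
    obtain ⟨ρ', i1, i2⟩ := trP_spec hS hx X ρ hρ
    refine ⟨ρ', i1.mono fun v hv => hS.mono _ _ _ ?_ hv, i2⟩
    unfold tz at *
    omega
  have h2 := HT.loop (x := x) (G := S ((m + 1) * (tz m + m + 3)))
    (coP : Fin m → List (Ins κ (Rg m)))
    (fun k ρ => (∀ i : Fin m, ρ (rs i) = Matrix.trace (xm x X ^ ((i : ℕ) + 1))) ∧
        ∀ j : Fin (m + 1), (j : ℕ) ≤ k → ρ (rc j) = cf (xm x X) j)
    (fun k => coP_spec hS hmK hx X k)
  refine HT.seq h1 (HT.cons ?_ (h2.weaken (fun ρ h => h) ?_))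
  · intro ρ i1
    refine ⟨by simp, ?_, ?_, ?_⟩
    · simp only [Ins.out, Src.val, Op.eval, add_zero]
      exact hS.mono 0 _ _ (by omega) hS.one
    · intro k
      simp only
      rw [Function.update_of_ne (by simp), i1]
    · intro j hj
      have : j = 0 := Fin.ext (by simpa using hj)
      subst this
      simp [Ins.out, Src.val, Op.eval, cf_zero]
  · rintro ρ ⟨-, i2⟩
    rw [i2 (Fin.last m) (by simp)]
    simp

end

end Pool.Agent.H682.RT
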