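import Pool.Agent.H682.RT.Kry2
import Pool.Graph.R_seed8.H558R2.Final

set_option autoImplicit false

/-!
# Assembly
-/

namespace Pool.Agent.H682.RT

open Pool.Agent.H558R2

variable {m n : ℕ}

/-! ### Trees -/

section

variable {κ R Q : Type} [DecidableEq R]

/-- The tree which runs a program for every query. -/
def ofQT (P : Q → List (Ins κ R)) (r : R) (ev : Bool) : QT Q → RegTree κ R
  | .leaf b => .answer b
  | .node q tn tz tp => pre (P q) (.sign (.reg r)
      (if ev then ofQT P r ev tn else ofQT P r ev tp) (ofQT P r ev tz)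
      (if ev then ofQT P r ev tp else ofQT P r ev tn))

lemma run_ofQT (P : Q → List (Ins κ R)) (r : R) (ev : Bool) (len : ℕ)
    (hlen : ∀ q, (P q).length ≤ len) (x : κ → ℝ) (G : ℝ → Prop) (χ : Q → SignType)
    (hP : ∀ q ρ, ∃ ρ', Exec x G (P q) ρ ρ' ∧
      SignType.sign (if ev then ρ' r else - ρ' r) = χ q) (T : QT Q) :
    ∀ ρ, ∃ nums steps, (ofQT P r ev T).run x ρ = some (T.eval χ, nums, steps) ∧
      steps ≤ T.depth * (len + 1) ∧ ∀ v ∈ nums, G v := by
  induction T with
  | leaf b =>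
    intro ρ
    exact ⟨[], 0, by simp [ofQT, RegTree.run, QT.eval], by simp, by simp⟩
  | node q tn tz tp ihn ihz ihp =>
    intro ρ
    obtain ⟨ρ', h1, h2⟩ := hP q ρ
    obtain ⟨nn, sn, an, bn, cn⟩ := ihn ρ'
    obtain ⟨nz, sz, az, bz, cz⟩ := ihz ρ'
    obtain ⟨np, sp, ap, bp, cp⟩ := ihp ρ'
    have hd : max (max tn.depth tz.depth) tp.depth * (len + 1) + (len + 1) =
        (QT.node q tn tz tp).depth * (len + 1) := by
      rw [QT.depth]
      ring
    have hdn : tn.depth * (len + 1) ≤ max (max tn.depth tz.depth) tp.depth * (len + 1) :=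
      Nat.mul_le_mul_right _ ((le_max_left _ _).trans (le_max_left _ _))
    have hdz : tz.depth * (len + 1) ≤ max (max tn.depth tz.depth) tp.depth * (len + 1) :=
      Nat.mul_le_mul_right _ ((le_max_right _ _).trans (le_max_left _ _))
    have hdp : tp.depth * (len + 1) ≤ max (max tn.depth tz.depth) tp.depth * (len + 1) :=
      Nat.mul_le_mul_right _ (le_max_right _ _)
    have hl := hlen q
    -- the test
    have key : ∃ nums steps, (RegTree.sign (.reg r)
        (if ev then ofQT P r ev tn else ofQT P r ev tp) (ofQT P r ev tz)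
        (if ev then ofQT P r ev tp else ofQT P r ev tn)).run x ρ' =
          some ((QT.node q tn tz tp).eval χ, nums, steps) ∧
        steps ≤ max (max tn.depth tz.depth) tp.depth * (len + 1) + 1 ∧ ∀ v ∈ nums, G v := by
      rw [RegTree.run, QT.eval, ← h2]
      simp only [Src.val]
      cases ev
      · simp only [Bool.false_eq_true, if_false]
        rcases lt_trichotomy (ρ' r) 0 with h | h | h
        · rw [if_pos h, ap, sign_pos (by linarith : 0 < - ρ' r)]
          exact ⟨np, sp + 1, rfl, by omega, cp⟩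
        · rw [h, if_neg (lt_irrefl _), if_pos rfl, az, neg_zero, sign_zero]
          exact ⟨nz, sz + 1, rfl, by omega, cz⟩
        · rw [if_neg (by linarith), if_neg (by linarith), an, sign_neg (by linarith : - ρ' r < 0)]
          exact ⟨nn, sn + 1, rfl, by omega, cn⟩
      · simp only [if_true]
        rcases lt_trichotomy (ρ' r) 0 with h | h | h
        · rw [if_pos h, an, sign_neg h]
          exact ⟨nn, sn + 1, rfl, by omega, cn⟩
        · rw [h, if_neg (lt_irrefl _), if_pos rfl, az, sign_zero]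
          exact ⟨nz, sz + 1, rfl, by omega, cz⟩
        · rw [if_neg (by linarith), if_neg (by linarith), ap, sign_pos h]
          exact ⟨np, sp + 1, rfl, by omega, cp⟩
    obtain ⟨nums, steps, k1, k2, k3⟩ := key
    obtain ⟨nums', e1, e2⟩ := run_pre h1 _ _ _ _ k1 k3
    refine ⟨nums', (P q).length + steps, e1, ?_, e2⟩
    omega

/-- Tests for the zeros of the inputs in a list. -/
def zt [DecidableEq κ] : List κ → (κ → Bool) → ((κ → Bool) → RegTree κ R) → RegTree κ R
  | [], z, f => f z
  | k :: l, z, f => .sign (.input k) (zt l (Function.update z k false) f)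
      (zt l (Function.update z k true) f) (zt l (Function.update z k false) f)

lemma run_zt [DecidableEq κ] (x : κ → ℝ) (zx : κ → Bool) (hzx : ∀ k, zx k = true ↔ x k = 0)
    (f : (κ → Bool) → RegTree κ R) (ρ : R → ℝ) (a : Bool) (nums : List ℝ) (s : ℕ)
    (hf : (f zx).run x ρ = some (a, nums, s)) (l : List κ) :
    ∀ z : κ → Bool, (∀ k, k ∉ l → z k = zx k) →
      (zt l z f).run x ρ = some (a, nums, s + l.length) := by
  induction l with
  | nil =>
    intro z hz
    have : z = zx := funext fun k => hz k (by simp)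
    rw [zt, this, hf]
    rfl
  | cons k l ih =>
    intro z hz
    have hup : ∀ b, zx k = b → ∀ k', k' ∉ l → Function.update z k b k' = zx k' := by
      intro b hb k' hk'
      by_cases h : k' = k
      · subst h
        rw [Function.update_self, hb]
      · rw [Function.update_of_ne h]
        exact hz k' (by simp [h, hk'])
    have hs : (Src.input k : Src κ R).val x ρ = x k := rfl
    rw [zt, RegTree.run, hs]
    by_cases h0 : x k = 0
    · rw [if_neg (by rw [h0]; exact lt_irrefl _), if_pos h0,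
        ih _ (hup true ((hzx k).2 h0))]
      simp only [Option.map_some, List.length_cons]
      congr 3
    · have hf' : zx k = false := by
        rw [Bool.eq_false_iff]
        intro h
        exact h0 ((hzx k).1 h)
      have e := ih _ (hup false hf')
      by_cases h1 : x k < 0
      · rw [if_pos h1, e]
        simp only [Option.map_some, List.length_cons]
        congr 3
      · rw [if_neg h1, if_neg h0, e]
        simp only [Option.map_some, List.length_cons]
        congr 3

end

/-! ### Renaming of registers -/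

section

variable {κ R R' : Type}

/-- Renaming in an operand. -/
def Src.ren (e : R ≃ R') : Src κ R → Src κ R'
  | .input k => .input k
  | .zero => .zero
  | .one => .one
  | .reg r => .reg (e r)

/-- Renaming in a tree. -/
def RegTree.ren (e : R ≃ R') : RegTree κ R → RegTree κ R'
  | .answer a => .answer a
  | .arith o d u v t => .arith o (e d) (u.ren e) (v.ren e) (t.ren e)
  | .sign u tn tz tp => .sign (u.ren e) (tn.ren e) (tz.ren e) (tp.ren e)

lemma Src.val_ren (e : R ≃ R') (x : κ → ℝ) (ρ : R → ℝ) (u : Src κ R) :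
    (u.ren e).val x (ρ ∘ e.symm) = u.val x ρ := by
  cases u <;> simp [Src.ren, Src.val]

lemma RegTree.run_ren [DecidableEq R] [DecidableEq R'] (e : R ≃ R') (x : κ → ℝ) (T : RegTree κ R) :
    ∀ ρ : R → ℝ, (T.ren e).run x (ρ ∘ e.symm) = T.run x ρ := by
  induction T with
  | answer a => intro ρ; rfl
  | arith o d u v t ih =>
    intro ρ
    rw [RegTree.ren, RegTree.run, RegTree.run, Src.val_ren, Src.val_ren]
    have : Function.update (ρ ∘ e.symm) (e d) (o.eval (u.val x ρ) (v.val x ρ)) =
        (Function.update ρ d (o.eval (u.val x ρ) (v.val x ρ))) ∘ e.symm := by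
      ext r
      by_cases h : r = e d
      · subst h
        simp
      · rw [Function.update_of_ne h, Function.comp_apply, Function.comp_apply,
          Function.update_of_ne]
        intro h'
        exact h (by rw [← h']; simp)
    rw [this, ih]
  | sign u tn tz tp ihn ihz ihp =>
    intro ρ
    rw [RegTree.ren, RegTree.run, RegTree.run, Src.val_ren, ihn, ihz, ihp]

lemma Decides.ren {R R' : Type} [DecidableEq R] [DecidableEq R'] (e : R ≃ R')
    {T : RegTree ((Fin m × Fin n) ⊕ Fin m) R} {s : ℕ} {ℓ : ℕ → ℕ} (h : Decides T s ℓ) :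
    Decides (T.ren e) s ℓ := by
  have e0 : (fun _ : R' => (0 : ℝ)) = (fun _ : R => (0 : ℝ)) ∘ e.symm := rfl
  refine ⟨fun A b => ?_, fun A b ans nums steps hr => ?_⟩
  · rw [e0, RegTree.run_ren]
    exact h.1 A b
  · rw [e0, RegTree.run_ren] at hr
    exact h.2 A b ans nums steps hr

end

/-! ### The minors -/

/-- The entries of the minors. -/
def entE (β : Fin m → Option (Fin (m + (n + n)))) (i j : Fin m) : Ent (Idx m n) :=
  match β j with
  | none => .neg (Sum.inr i)
  | some k => match (colEquiv m n).symm k with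
    | Sum.inl r => if i = r then .one else .zero
    | Sum.inr (Sum.inl c) => .neg (Sum.inl (i, c))
    | Sum.inr (Sum.inr c) => .pos (Sum.inl (i, c))

lemma xm_entE (A : Matrix (Fin m) (Fin n) ℝ) (b : Fin m → ℝ)
    (β : Fin m → Option (Fin (m + (n + n)))) :
    (xm (lpInput A b) (entE β)).det = dd (wmat A b) β := by
  unfold dd
  congr 1
  ext i j
  simp only [xm, Matrix.of_apply, entE, wmat]
  rcases β j with _ | k
  · simp [Ent.val, lpInput]
  · simp only
    rcases (colEquiv m n).symm k with r | c | c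
    · simp only [colEntry]
      split_ifs <;> simp [Ent.val]
    · simp [colEntry, Ent.val, lpInput]
    · simp [colEntry, Ent.val, lpInput]

lemma sign_of_cf (A : Matrix (Fin m) (Fin n) ℝ) (b : Fin m → ℝ)
    (β : Fin m → Option (Fin (m + (n + n)))) (c v : ℝ) (hc : 0 < c)
    (hv : v = c * cf (xm (lpInput A b) (entE β)) m) :
    SignType.sign (if decide (Even m) then v else -v) = pat (m := m) (n := n) (A, b) β := by
  have h1 : pat (m := m) (n := n) (A, b) β = SignType.sign (dd (wmat A b) β) := rfl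
  rw [h1, ← xm_entE, det_eq_cf, hv]
  by_cases he : Even m
  · rw [if_pos (by simpa using he), he.neg_one_pow, one_mul, sign_mul, sign_pos hc, one_mul]
  · have ho : Odd m := Nat.not_even_iff_odd.1 he
    rw [if_neg (by simpa using he), ho.neg_one_pow, neg_one_mul, ← mul_neg, sign_mul, sign_pos hc,
      one_mul]

/-! ### Rational instances -/

lemma size_rat (A : Matrix (Fin m) (Fin n) ℚ) (b : Fin m → ℚ) (K E : ℕ) :
    ∃ S : ℕ → ℝ → Prop, Size K S ∧
      (∀ k, S 1 (lpInput (fun i j => ((A i j : ℚ) : ℝ)) (fun i => ((b i : ℚ) : ℝ)) k)) ∧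
      ∀ v, S E v → ∃ q : ℚ, (q : ℝ) = v ∧
        bitLength q ≤ 2 * ((2 * inputLength A b + K * K + K + 1) * E) + 3 := by
  set r := ratInput A b with hr
  set ℓ := inputLength A b with hℓ
  have hℓ' : ℓ = ∑ k, bitLength (r k) := inputLength_eq A b
  set D := ∏ k, (r k).den with hD
  have hDpos : 1 ≤ D := Finset.prod_pos fun k _ => (r k).den_pos
  have hDle : D ≤ 2 ^ ℓ := by
    calc D ≤ ∏ k, 2 ^ bitLength (r k) := by
          apply Finset.prod_le_prod'
          intro k _
          refine (le_two_pow_size _).trans (Nat.pow_le_pow_right (by omega) ?_)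
          unfold bitLength
          omega
      _ = 2 ^ ℓ := by rw [Finset.prod_pow_eq_pow_sum, hℓ']
  have hdvd : ∀ k, (r k).den ∣ D := fun k => Finset.dvd_prod_of_mem _ (Finset.mem_univ k)
  set N := D * K.factorial with hN
  set M := N * (2 * (K + 1) * 2 ^ ℓ) with hM
  have hfpos : 1 ≤ K.factorial := K.factorial_pos
  have hNpos : 1 ≤ N := Nat.mul_pos hDpos hfpos
  have h2ℓ : 1 ≤ 2 ^ ℓ := Nat.one_le_two_pow
  have hNM : 2 * N * (K + 1) ≤ M := by
    calc 2 * N * (K + 1) = N * (2 * (K + 1) * 1) := by ring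
      _ ≤ N * (2 * (K + 1) * 2 ^ ℓ) := Nat.mul_le_mul_left _ (Nat.mul_le_mul_left _ h2ℓ)
  have hK : ∀ t : ℕ, 1 ≤ t → t ≤ K → t ∣ N := fun t h1 h2 =>
    Dvd.dvd.mul_left (Nat.dvd_factorial h1 h2) D
  have hM2 : M ≤ 2 ^ (2 * ℓ + K * K + K + 1) := by
    have h1 : K.factorial ≤ 2 ^ (K * K) := by
      calc K.factorial ≤ K ^ K := Nat.factorial_le_pow K
        _ ≤ (2 ^ K) ^ K := Nat.pow_le_pow_left Nat.lt_two_pow_self.le K
        _ = 2 ^ (K * K) := by rw [pow_mul]
    have h2 : K + 1 ≤ 2 ^ K := Nat.lt_two_pow_self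
    calc M = D * K.factorial * (2 * (K + 1) * 2 ^ ℓ) := rfl
      _ ≤ 2 ^ ℓ * 2 ^ (K * K) * (2 * 2 ^ K * 2 ^ ℓ) := by gcongr
      _ = 2 ^ (2 * ℓ + K * K + K + 1) := by ring
  refine ⟨Sz N M, size_Sz N M K hNM hNpos hK, ?_, ?_⟩
  · intro k
    have ex : lpInput (fun i j => ((A i j : ℚ) : ℝ)) (fun i => ((b i : ℚ) : ℝ)) k =
        ((r k : ℚ) : ℝ) := by rw [lpInput_rat]
    rw [ex]
    obtain ⟨c, hc⟩ := hdvd k
    have hdk : 0 < (r k).den := (r k).den_pos
    have hdk' : ((r k).den : ℝ) ≠ 0 := by positivity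
    have e : ((r k : ℚ) : ℝ) = ((r k).num : ℝ) / ((r k).den : ℝ) := by
      conv_lhs => rw [← Rat.num_div_den (r k)]
      push_cast
      rfl
    have hval : ((r k : ℚ) : ℝ) * (N : ℝ) ^ 1 = (((r k).num * c * K.factorial : ℤ) : ℝ) := by
      rw [e, pow_one, hN, Nat.cast_mul, hc]
      push_cast
      field_simp
    refine ⟨(r k).num * c * K.factorial, hval, ?_⟩
    have h2 : bitLength (r k) ≤ ℓ := by
      rw [hℓ']
      exact Finset.single_le_sum (f := fun k => bitLength (r k)) (fun _ _ => Nat.zero_le _)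
        (Finset.mem_univ k)
    have h3 : (r k).num.natAbs ≤ 2 ^ ℓ :=
      (le_two_pow_size _).trans (Nat.pow_le_pow_right (by omega) (by
        unfold bitLength at h2; omega))
    have h4 : |(r k : ℝ)| ≤ 2 ^ ℓ := by
      rw [e, abs_div, Nat.abs_cast]
      have h5 : |((r k).num : ℝ)| = ((r k).num.natAbs : ℝ) := by
        rw [Nat.cast_natAbs]
        push_cast
        rfl
      rw [h5, div_le_iff₀ (by positivity)]
      have h6 : (1 : ℝ) ≤ (r k).den := by exact_mod_cast hdk
      have h7 : ((r k).num.natAbs : ℝ) ≤ 2 ^ ℓ := by exact_mod_cast h3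
      nlinarith [pow_pos (two_pos : (0 : ℝ) < 2) ℓ]
    have e9 : (M : ℝ) = (N : ℝ) * (2 * ((K : ℝ) + 1) * 2 ^ ℓ) := by
      rw [hM]
      push_cast
      ring
    rw [abs_mul, pow_one, pow_one, Nat.abs_cast, mul_comm, e9]
    refine mul_le_mul_of_nonneg_left (h4.trans ?_) (Nat.cast_nonneg _)
    have h8 : (0 : ℝ) ≤ K := by positivity
    nlinarith [pow_pos (two_pos : (0 : ℝ) < 2) ℓ]
  · rintro v ⟨z, h1, h2⟩
    have hNM' : N ≤ M := by nlinarith
    have hIB : IB v (N ^ E) (M ^ E) := by
      refine ⟨z, ?_, ?_⟩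
      · push_cast
        exact h1
      · have h3 : |(z : ℝ)| ≤ (M : ℝ) ^ E := by
          rw [← h1]
          exact h2
        exact_mod_cast h3
    refine bitLength_of_IB hIB (Nat.one_le_pow _ _ hNpos) ?_ ?_
    · rw [pow_mul]
      exact Nat.pow_le_pow_left (hNM'.trans hM2) E
    · rw [pow_mul]
      exact Nat.pow_le_pow_left hM2 E

/-! ### The two theorems -/

lemma depth_le (hm : 1 ≤ m) (hn : 1 ≤ n) (T : QT (Fin m → Option (Fin (m + (n + n)))))
    (hT : T.depth ≤ (2 * m + 2 * n + 3) * ((2 * m + 2 * n + 3) * (pexp m n + 1))) :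
    T.depth ≤ 96 * (m + n) ^ 6 := by
  set N := m + n with hN
  have hmN : m ≤ N := by omega
  have hs : 2 * m + 2 * n + 3 ≤ 4 * N := by omega
  have hP : pexp m n + 1 ≤ 6 * N ^ 4 := by
    unfold pexp
    have a1 : (m + (n + n) + 1) * m + m + 3 ≤ 5 * N ^ 2 := by
      have b1 : (m + (n + n) + 1) * m ≤ (3 * N) * N := Nat.mul_le_mul (by omega) hmN
      nlinarith
    have a2 : m * n + m ≤ N ^ 2 := by
      have : m * (n + 1) ≤ N * N := Nat.mul_le_mul hmN (by omega)
      nlinarith
    have a3 := Nat.mul_le_mul a1 a2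
    have a4 : 1 ≤ N ^ 4 := Nat.one_le_pow _ _ (by omega)
    calc ((m + (n + n) + 1) * m + m + 3) * (m * n + m) + 1 ≤ 5 * N ^ 2 * N ^ 2 + N ^ 4 :=
          Nat.add_le_add a3 a4
      _ = 6 * N ^ 4 := by ring
  refine hT.trans ?_
  calc (2 * m + 2 * n + 3) * ((2 * m + 2 * n + 3) * (pexp m n + 1))
      ≤ (4 * N) * ((4 * N) * (6 * N ^ 4)) := Nat.mul_le_mul hs (Nat.mul_le_mul hs hP)
    _ = 96 * N ^ 6 := by ring

lemma card_Idx (m n : ℕ) : (Finset.univ : Finset (Idx m n)).toList.length = m * n + m := by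
  simp

theorem many_registers (m n : ℕ) (hm : 1 ≤ m) (hn : 1 ≤ n) :
    ∃ T : RegTree ((Fin m × Fin n) ⊕ Fin m) (Fin (4 * m + 2)),
      Decides T (1600 * (m + n) ^ 10) (fun L => 200 * L ^ 5) := by
  classical
  obtain ⟨T, hT, hT'⟩ := exists_queryTree m n
  have hdepth := depth_le hm hn T hT
  set N := m + n with hN
  have hN2 : 2 ≤ N := by omega
  have hmN : m ≤ N := by omega
  set P : (Fin m → Option (Fin (m + (n + n)))) → List (Ins (Idx m n) (Rg m)) :=
    fun β => detP (entE β) with hP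
  have hlen : ∀ β, (P β).length ≤ 15 * N ^ 4 := by
    intro β
    refine (length_detP _).trans ?_
    have a1 : m ^ 4 ≤ N ^ 4 := Nat.pow_le_pow_left hmN 4
    have a2 : m ^ 3 ≤ m ^ 4 := Nat.pow_le_pow_right hm (by omega)
    have a3 : m ^ 2 ≤ m ^ 4 := Nat.pow_le_pow_right hm (by omega)
    have a4 : m ≤ m ^ 4 := by simpa using Nat.pow_le_pow_right hm (by omega : 1 ≤ 4)
    have a5 : 1 ≤ m ^ 4 := Nat.one_le_pow _ _ hm
    calc m + m * (m + m * (m * (1 + m * 2) + m + 1)) + (1 + m * (2 * m + 2 * m + 3))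
        = 2 * m ^ 4 + 2 * m ^ 3 + 6 * m ^ 2 + 4 * m + 1 := by ring
      _ ≤ 15 * m ^ 4 := by omega
      _ ≤ 15 * N ^ 4 := Nat.mul_le_mul_left _ a1
  -- the runs
  have hrun : ∀ (S : ℕ → ℝ → Prop), Size m S → ∀ (A : Matrix (Fin m) (Fin n) ℝ) (b : Fin m → ℝ),
      (∀ k, S 1 (lpInput A b k)) → ∃ nums steps,
      (ofQT P (rc (Fin.last m)) (decide (Even m)) T).run (lpInput A b) (fun _ => 0) =
        some (T.eval (pat (m := m) (n := n) (A, b)), nums, steps) ∧
        steps ≤ T.depth * (15 * N ^ 4 + 1) ∧ ∀ v ∈ nums, S ((m + 1) * (tz m + m + 3)) v := by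
    intro S hS A b hx
    refine run_ofQT P _ _ (15 * N ^ 4) hlen (lpInput A b) _ _ ?_ T _
    intro β ρ
    obtain ⟨ρ', h1, h2⟩ := detP_spec hS le_rfl hx (entE β) ρ trivial
    exact ⟨ρ', h1, sign_of_cf A b β 1 _ one_pos (by rw [h2, one_mul])⟩
  have hT2 : ∃ T' : RegTree ((Fin m × Fin n) ⊕ Fin m) (Rg m),
      Decides T' (1600 * N ^ 10) (fun L => 200 * L ^ 5) := by
    refine ⟨ofQT P (rc (Fin.last m)) (decide (Even m)) T, ?_, ?_⟩
    · intro A b
      obtain ⟨nums, steps, h1, h2, -⟩ := hrun (fun _ _ => True) (size_true m) A b (fun _ => trivial)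
      refine ⟨_, nums, steps, h1, ?_, h2.trans ?_⟩
      · rw [hT' (A, b), decide_eq_true_eq]
        unfold Feas
        refine exists_congr fun x => ?_
        rw [Pi.le_def]
        rfl
      · have a5 : 1 ≤ N ^ 4 := Nat.one_le_pow _ _ (by omega)
        calc T.depth * (15 * N ^ 4 + 1) ≤ (96 * N ^ 6) * (16 * N ^ 4) :=
              Nat.mul_le_mul hdepth (by omega)
          _ = 1536 * N ^ 10 := by ring
          _ ≤ 1600 * N ^ 10 := Nat.mul_le_mul_right _ (by omega)
    · intro A b ans nums steps hr v hv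
      obtain ⟨S, hS, hx, hbl⟩ := size_rat A b m ((m + 1) * (tz m + m + 3))
      obtain ⟨nums', steps', h1, -, h3⟩ := hrun S hS _ _ hx
      have e := hr.symm.trans h1
      simp only [Option.some.injEq, Prod.mk.injEq] at e
      obtain ⟨-, rfl, -⟩ := e
      obtain ⟨q, hq1, hq2⟩ := hbl v (h3 v hv)
      refine ⟨q, hq1, hq2.trans ?_⟩
      set ℓ := inputLength A b with hℓ
      have hmℓ : 4 * m ≤ ℓ := by
        have h1 : ∀ i : Fin m, 2 ≤ bitLength (b i) := fun i => by
          unfold bitLength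
          have := (b i).den_pos
          have : 0 < Nat.size (b i).den := Nat.size_pos.2 this
          omega
        have h2 : ∀ (i : Fin m) (j : Fin n), 2 ≤ bitLength (A i j) := fun i j => by
          unfold bitLength
          have := (A i j).den_pos
          have : 0 < Nat.size (A i j).den := Nat.size_pos.2 this
          omega
        have h3 : m * 2 ≤ ∑ i, bitLength (b i) := by
          calc m * 2 = ∑ _i : Fin m, 2 := by simp
            _ ≤ ∑ i, bitLength (b i) := Finset.sum_le_sum fun i _ => h1 i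
        have h4 : m * (n * 2) ≤ ∑ i, ∑ j, bitLength (A i j) := by
          calc m * (n * 2) = ∑ _i : Fin m, ∑ _j : Fin n, 2 := by simp
            _ ≤ ∑ i, ∑ j, bitLength (A i j) :=
              Finset.sum_le_sum fun i _ => Finset.sum_le_sum fun j _ => h2 i j
        rw [hℓ, inputLength]
        nlinarith
      have b1 : m * m ≤ ℓ * ℓ := Nat.mul_le_mul (by omega) (by omega)
      have b0 : 4 ≤ ℓ := by omega
      have b2 : 2 * ℓ + m * m + m + 1 ≤ 2 * ℓ * ℓ := by nlinarith
      have b3 : (m + 1) * (tz m + m + 3) ≤ 8 * ℓ ^ 3 := by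
        unfold tz
        have c1 : m + 1 ≤ ℓ := by omega
        have c2 : m * (m + 2) + m + m + 3 ≤ ℓ * ℓ := by nlinarith
        calc (m + 1) * (m * (m + 2) + m + m + 3) ≤ ℓ * (ℓ * ℓ) := Nat.mul_le_mul c1 c2
          _ ≤ 8 * ℓ ^ 3 := by nlinarith [Nat.zero_le (ℓ ^ 3)]
      calc 2 * ((2 * ℓ + m * m + m + 1) * ((m + 1) * (tz m + m + 3))) + 3
          ≤ 2 * ((2 * ℓ * ℓ) * (8 * ℓ ^ 3)) + 3 := by gcongr
        _ = 32 * ℓ ^ 5 + 3 := by ring
        _ ≤ 200 * ℓ ^ 5 := by
          have : 1 ≤ ℓ ^ 5 := Nat.one_le_pow _ _ (by omega)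
          omega
  obtain ⟨T', hT3⟩ := hT2
  have hc : Fintype.card (Rg m) = Fintype.card (Fin (4 * m + 2)) := by
    rw [card_Rg, Fintype.card_fin]
  exact ⟨_, hT3.ren (Fintype.equivOfCardEq hc)⟩

end Pool.Agent.H682.RT
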