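import Pool.Graph.R_seed8.H558R2.Act

set_option autoImplicit false

/-!
# Algebraic computation trees with few real registers
-/

namespace Pool.Agent.H682.RT

open Pool.Agent.H558R2

/-- An operand of an elementary step: an input number, one of the constants `0` and `1`, or the
content of a register. -/
inductive Src (κ R : Type) : Type
  | input (k : κ)
  | zero
  | one
  | reg (r : R)

/-- The value of an operand, on input `x`, if the registers contain the numbers `ρ`. -/
def Src.val {κ R : Type} (x : κ → ℝ) (ρ : R → ℝ) : Src κ R → ℝ
  | .input k => x k
  | .zero => 0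
  | .one => 1
  | .reg r => ρ r

/-- Algebraic computation trees on inputs indexed by `κ`, with the real registers `R`: every node
stops with an answer, or writes the result of one arithmetic operation to a register, or asks for
the sign of an operand and branches. -/
inductive RegTree (κ R : Type) : Type
  | answer (a : Bool)
  | arith (o : Op) (d : R) (u v : Src κ R) (next : RegTree κ R)
  | sign (u : Src κ R) (neg zero pos : RegTree κ R)

/-- `T.run x ρ` executes the tree `T` on input `x`, if the registers contain the numbers `ρ`. It
returns the answer, the list of all numbers computed, and the number of elementary steps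
(arithmetic operations and sign tests). It fails (value `none`) at a division by zero. -/
noncomputable def RegTree.run {κ R : Type} [DecidableEq R] (x : κ → ℝ) :
    RegTree κ R → (R → ℝ) → Option (Bool × List ℝ × ℕ)
  | .answer a, _ => some (a, [], 0)
  | .arith o d u v t, ρ =>
    if o = Op.div ∧ v.val x ρ = 0 then none
    else (t.run x (Function.update ρ d (o.eval (u.val x ρ) (v.val x ρ)))).map fun r =>
      (r.1, o.eval (u.val x ρ) (v.val x ρ) :: r.2.1, r.2.2 + 1)
  | .sign u tn tz tp, ρ =>
    (if u.val x ρ < 0 then tn.run x ρ else if u.val x ρ = 0 then tz.run x ρ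
      else tp.run x ρ).map fun r => (r.1, r.2.1, r.2.2 + 1)

/-- With the registers initially `0`, the tree `T` decides linear feasibility for all real
systems of `m` inequalities in `n` unknowns, never dividing by zero, within `s` elementary steps;
and on rational instances of encoding length `L`, all numbers computed are rational numbers of
encoding length at most `ℓ L`. -/
def Decides {m n : ℕ} {R : Type} [DecidableEq R] (T : RegTree ((Fin m × Fin n) ⊕ Fin m) R) (s : ℕ)
    (ℓ : ℕ → ℕ) : Prop :=
  (∀ (A : Matrix (Fin m) (Fin n) ℝ) (b : Fin m → ℝ), ∃ ans nums steps,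
    T.run (lpInput A b) (fun _ => 0) = some (ans, nums, steps) ∧
    (ans = true ↔ ∃ x : Fin n → ℝ, b ≤ A.mulVec x) ∧ steps ≤ s) ∧
  ∀ (A : Matrix (Fin m) (Fin n) ℚ) (b : Fin m → ℚ) (ans : Bool) (nums : List ℝ) (steps : ℕ),
    T.run (lpInput (fun i j => ((A i j : ℚ) : ℝ)) (fun i => ((b i : ℚ) : ℝ))) (fun _ => 0) =
      some (ans, nums, steps) →
    ∀ v ∈ nums, ∃ q : ℚ, (q : ℝ) = v ∧ bitLength q ≤ ℓ (inputLength A b)

end Pool.Agent.H682.RT
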