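import Pool.Agent.H682.RT.Model

set_option autoImplicit false

/-!
# Straight-line programs on registers, and sizes of numbers
-/

namespace Pool.Agent.H682.RT

open Pool.Agent.H558R2

variable {κ R : Type}

/-- One arithmetic instruction. -/
structure Ins (κ R : Type) : Type where
  /-- the operation -/
  op : Op
  /-- the target -/
  dst : R
  /-- the first operand -/
  fst : Src κ R
  /-- the second operand -/
  snd : Src κ R

/-- The value computed by an instruction. -/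
noncomputable def Ins.out (x : κ → ℝ) (ρ : R → ℝ) (I : Ins κ R) : ℝ :=
  I.op.eval (I.fst.val x ρ) (I.snd.val x ρ)

/-- Execution of a program from the store `ρ` to the store `ρ'`, without division by zero, all
numbers computed satisfying `G`. -/
inductive Exec [DecidableEq R] (x : κ → ℝ) (G : ℝ → Prop) : List (Ins κ R) → (R → ℝ) → (R → ℝ) → Prop
  | nil (ρ : R → ℝ) : Exec x G [] ρ ρ
  | cons (I : Ins κ R) (P : List (Ins κ R)) (ρ ρ' : R → ℝ)
      (h1 : ¬ (I.op = Op.div ∧ I.snd.val x ρ = 0)) (h2 : G (I.out x ρ))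
      (h3 : Exec x G P (Function.update ρ I.dst (I.out x ρ)) ρ') : Exec x G (I :: P) ρ ρ'

section

variable [DecidableEq R] {x : κ → ℝ} {G : ℝ → Prop}

lemma Exec.append {P Q : List (Ins κ R)} {ρ ρ' ρ'' : R → ℝ} (h : Exec x G P ρ ρ')
    (h' : Exec x G Q ρ' ρ'') : Exec x G (P ++ Q) ρ ρ'' := by
  induction h with
  | nil ρ => exact h'
  | cons I P ρ ρ' h1 h2 h3 ih => exact Exec.cons I _ ρ _ h1 h2 (ih h')

lemma Exec.mono {P : List (Ins κ R)} {ρ ρ' : R → ℝ} {G' : ℝ → Prop} (h : Exec x G P ρ ρ')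
    (hG : ∀ v, G v → G' v) : Exec x G' P ρ ρ' := by
  induction h with
  | nil ρ => exact Exec.nil ρ
  | cons I P ρ ρ' h1 h2 h3 ih => exact Exec.cons I _ ρ _ h1 (hG _ h2) ih

lemma Exec.one (I : Ins κ R) (ρ : R → ℝ) (v : ℝ) (h1 : I.op = Op.div → I.snd.val x ρ ≠ 0)
    (hv : I.out x ρ = v) (h2 : G v) : Exec x G [I] ρ (Function.update ρ I.dst v) := by
  subst hv
  exact Exec.cons I [] ρ _ (fun h => h1 h.1 h.2) h2 (Exec.nil _)

/-- The tree which executes a program and continues with `T`. -/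
def pre : List (Ins κ R) → RegTree κ R → RegTree κ R
  | [], T => T
  | I :: P, T => RegTree.arith I.op I.dst I.fst I.snd (pre P T)

lemma run_pre {P : List (Ins κ R)} {ρ ρ' : R → ℝ} (h : Exec x G P ρ ρ') (T : RegTree κ R)
    (a : Bool) (nums : List ℝ) (s : ℕ) (hT : T.run x ρ' = some (a, nums, s))
    (hn : ∀ v ∈ nums, G v) : ∃ nums', (pre P T).run x ρ = some (a, nums', P.length + s) ∧
      ∀ v ∈ nums', G v := by
  induction h with
  | nil ρ => exact ⟨nums, by simp [pre, hT], hn⟩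
  | cons I P ρ ρ' h1 h2 h3 ih =>
    obtain ⟨nums', e, hg⟩ := ih hT
    refine ⟨I.out x ρ :: nums', ?_, ?_⟩
    · rw [pre, RegTree.run, if_neg h1]
      have e2 : I.op.eval (I.fst.val x ρ) (I.snd.val x ρ) = I.out x ρ := rfl
      rw [e2, e]
      simp only [Option.map_some, List.length_cons]
      congr 3
      omega
    · intro v hv
      rcases List.mem_cons.1 hv with rfl | hv
      · exact h2
      · exact hg v hv

end

/-- A graded family of sets of real numbers, closed under the arithmetic operations (with at most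
`K` as constants). -/
structure Size (K : ℕ) (S : ℕ → ℝ → Prop) : Prop where
  mono : ∀ e e' v, e ≤ e' → S e v → S e' v
  add : ∀ e v w, S e v → S e w → S (e + 1) (v + w)
  sub : ∀ e v w, S e v → S e w → S (e + 1) (v - w)
  mul : ∀ e e' v w, S e v → S e' w → S (e + e') (v * w)
  nat : ∀ t : ℕ, t ≤ K → S 1 (t : ℝ)
  zero : S 0 0
  one : S 0 1
  div : ∀ e v (t : ℕ), 1 ≤ t → t ≤ K → S e v → S (e + 1) (v / t)

/-- The trivial size. -/
lemma size_true (K : ℕ) : Size K (fun _ _ => True) :=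
  ⟨fun _ _ _ _ _ => trivial, fun _ _ _ _ _ => trivial, fun _ _ _ _ _ => trivial,
    fun _ _ _ _ _ _ => trivial, fun _ _ => trivial, trivial, trivial,
    fun _ _ _ _ _ _ => trivial⟩

/-- `v` times `N ^ e` is an integer of absolute value at most `M ^ e`. -/
def Sz (N M : ℕ) (e : ℕ) (v : ℝ) : Prop := ∃ z : ℤ, v * (N : ℝ) ^ e = z ∧ |v * (N : ℝ) ^ e| ≤ (M : ℝ) ^ e

lemma Sz.mono' {N M : ℕ} (hM : N ≤ M) {e e' : ℕ} {v : ℝ} (he : e ≤ e')
    (h : Sz N M e v) : Sz N M e' v := by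
  obtain ⟨d, rfl⟩ := Nat.exists_eq_add_of_le he
  obtain ⟨z, h1, h2⟩ := h
  refine ⟨z * (N : ℤ) ^ d, ?_, ?_⟩
  · rw [pow_add, ← mul_assoc, h1]
    push_cast
    ring
  · rw [pow_add, pow_add, ← mul_assoc, abs_mul, abs_of_nonneg (by positivity : (0 : ℝ) ≤ (N : ℝ) ^ d)]
    apply mul_le_mul h2 _ (by positivity) (by positivity)
    exact pow_le_pow_left₀ (by positivity) (by exact_mod_cast hM) d

/-- The sizes given by common denominators. -/
lemma size_Sz (N M K : ℕ) (hNM : 2 * N * (K + 1) ≤ M) (hN : 1 ≤ N)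
    (hK : ∀ t : ℕ, 1 ≤ t → t ≤ K → t ∣ N) : Size K (Sz N M) := by
  have hNM' : N ≤ M := by nlinarith
  have hN0 : (0 : ℝ) < N := by exact_mod_cast hN
  have hM2 : (2 : ℝ) * N ≤ M := by
    have : 2 * N ≤ M := by nlinarith
    exact_mod_cast this
  have hM1 : (1 : ℝ) ≤ M := by
    have : 1 ≤ M := by omega
    exact_mod_cast this
  refine ⟨fun e e' v he h => h.mono' hNM' he, ?_, ?_, ?_, ?_, ?_, ?_, ?_⟩
  · rintro e v w ⟨z, h1, h2⟩ ⟨y, h3, h4⟩
    refine ⟨(z + y) * N, ?_, ?_⟩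
    · push_cast
      rw [← h1, ← h3]
      ring
    · have e1 : (v + w) * (N : ℝ) ^ (e + 1) = (v * (N : ℝ) ^ e + w * (N : ℝ) ^ e) * N := by ring
      rw [e1, abs_mul, abs_of_pos hN0]
      calc |v * (N : ℝ) ^ e + w * (N : ℝ) ^ e| * N
          ≤ (|v * (N : ℝ) ^ e| + |w * (N : ℝ) ^ e|) * N :=
            mul_le_mul_of_nonneg_right (abs_add_le _ _) hN0.le
        _ ≤ ((M : ℝ) ^ e + (M : ℝ) ^ e) * N :=
            mul_le_mul_of_nonneg_right (add_le_add h2 h4) hN0.le
        _ = (M : ℝ) ^ e * (2 * N) := by ring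
        _ ≤ (M : ℝ) ^ e * M := mul_le_mul_of_nonneg_left hM2 (by positivity)
        _ = (M : ℝ) ^ (e + 1) := by ring
  · rintro e v w ⟨z, h1, h2⟩ ⟨y, h3, h4⟩
    refine ⟨(z - y) * N, ?_, ?_⟩
    · push_cast
      rw [← h1, ← h3]
      ring
    · have e1 : (v - w) * (N : ℝ) ^ (e + 1) = (v * (N : ℝ) ^ e - w * (N : ℝ) ^ e) * N := by ring
      rw [e1, abs_mul, abs_of_pos hN0]
      calc |v * (N : ℝ) ^ e - w * (N : ℝ) ^ e| * N
          ≤ (|v * (N : ℝ) ^ e| + |w * (N : ℝ) ^ e|) * N :=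
            mul_le_mul_of_nonneg_right (abs_sub _ _) hN0.le
        _ ≤ ((M : ℝ) ^ e + (M : ℝ) ^ e) * N :=
            mul_le_mul_of_nonneg_right (add_le_add h2 h4) hN0.le
        _ = (M : ℝ) ^ e * (2 * N) := by ring
        _ ≤ (M : ℝ) ^ e * M := mul_le_mul_of_nonneg_left hM2 (by positivity)
        _ = (M : ℝ) ^ (e + 1) := by ring
  · rintro e e' v w ⟨z, h1, h2⟩ ⟨y, h3, h4⟩
    refine ⟨z * y, ?_, ?_⟩
    · push_cast
      rw [← h1, ← h3]
      ring
    · have e1 : v * w * (N : ℝ) ^ (e + e') = (v * (N : ℝ) ^ e) * (w * (N : ℝ) ^ e') := by ring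
      rw [e1, abs_mul, pow_add]
      exact mul_le_mul h2 h4 (abs_nonneg _) (by positivity)
  · intro t ht
    refine ⟨t * N, by push_cast; ring, ?_⟩
    rw [abs_of_nonneg (by positivity), pow_one, pow_one]
    have : t * N ≤ M := by nlinarith
    exact_mod_cast this
  · exact ⟨0, by simp, by simp⟩
  · exact ⟨1, by simp, by simp⟩
  · rintro e v t ht1 ht2 ⟨z, h1, h2⟩
    obtain ⟨c, hc⟩ := hK t ht1 ht2
    have ht0 : (t : ℝ) ≠ 0 := by positivity
    have hc' : (N : ℝ) = t * c := by exact_mod_cast hc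
    have e1 : v / t * (N : ℝ) ^ (e + 1) = (v * (N : ℝ) ^ e) * c := by
      rw [pow_succ]
      nth_rewrite 2 [hc']
      field_simp
    have hcN : (c : ℝ) ≤ M := by
      have : c ≤ N := Nat.le_of_dvd hN ⟨t, by rw [hc, mul_comm]⟩
      exact_mod_cast this.trans hNM'
    refine ⟨z * c, ?_, ?_⟩
    · rw [e1, h1]
      push_cast
      ring
    · rw [e1, abs_mul, pow_succ, abs_of_nonneg (by positivity : (0 : ℝ) ≤ (c : ℝ))]
      exact mul_le_mul h2 hcN (by positivity) (by positivity)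

end Pool.Agent.H682.RT
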