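import Pool.Agent.H682.RT.Main

set_option autoImplicit false

/-!
# Three registers
-/

namespace Pool.Agent.H682.RT

open Pool.Agent.H558R2

variable {m n : ℕ}

/-- Initialisation of the three registers. -/
def reset {κ : Type} : List (Ins κ (Fin 3)) :=
  [⟨Op.add, 0, .zero, .zero⟩, ⟨Op.add, 1, .one, .zero⟩, ⟨Op.add, 2, .zero, .zero⟩]

/-- The program with three registers for a minor. -/
def prog3 (q : ℕ) (z : Idx m n → Bool) (β : Fin m → Option (Fin (m + (n + n)))) :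
    List (Ins (Idx m n) (Fin 3)) :=
  reset ++ (Fm.detF q m fun i j => (entE β i j).toFm).prog z false 0 1 2

lemma exec_reset {κ : Type} {x : κ → ℝ} {K : ℕ} {S : ℕ → ℝ → Prop} (hS : Size K S) (E : ℕ)
    (ρ : Fin 3 → ℝ) : ∃ ρ', Exec x (S E) reset ρ ρ' ∧ ρ' 0 = 0 ∧ ρ' 1 = 1 ∧ ρ' 2 = 0 := by
  have h0 : S E (0 + 0) := by
    rw [add_zero]
    exact hS.mono 0 _ _ (by omega) hS.zero
  have h1 : S E (1 + 0) := by
    rw [add_zero]
    exact hS.mono 0 _ _ (by omega) hS.one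
  refine ⟨_, Exec.cons _ _ _ _ (by simp) h0 (Exec.cons _ _ _ _ (by simp) h1
    (Exec.cons _ _ _ _ (by simp) h0 (Exec.nil _))), ?_, ?_, ?_⟩
  · simp [Ins.out, Src.val, Op.eval, Function.update]
  · simp [Ins.out, Src.val, Op.eval, Function.update]
  · simp [Ins.out, Src.val, Op.eval, Function.update]

lemma log_bound (m n : ℕ) (hm : 1 ≤ m) (hn : 1 ≤ n) :
    4 ^ (2 * (Nat.log 2 m + 1 + 1) ^ 2) ≤ (m + n) ^ (36 * Nat.log 2 (m + n)) := by
  set N := m + n with hN
  set l := Nat.log 2 N with hl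
  have hN2 : 2 ≤ N := by omega
  have hl1 : 1 ≤ l := Nat.log_pos (by omega) hN2
  have hml : Nat.log 2 m ≤ l := Nat.log_mono_right (by omega)
  have h2l : 2 ^ l ≤ N := Nat.pow_log_le_self 2 (by omega)
  have e1 : (Nat.log 2 m + 1 + 1) ^ 2 ≤ (3 * l) ^ 2 := Nat.pow_le_pow_left (by omega) 2
  calc 4 ^ (2 * (Nat.log 2 m + 1 + 1) ^ 2) ≤ 4 ^ (2 * (3 * l) ^ 2) :=
        Nat.pow_le_pow_right (by omega) (Nat.mul_le_mul_left _ e1)
    _ = (2 ^ l) ^ (36 * l) := by
        rw [show (4 : ℕ) = 2 ^ 2 by norm_num, ← pow_mul, ← pow_mul]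
        congr 1
        ring
    _ ≤ N ^ (36 * l) := Nat.pow_le_pow_left h2l _

theorem three_registers (m n : ℕ) (hm : 1 ≤ m) (hn : 1 ≤ n) :
    ∃ T : RegTree ((Fin m × Fin n) ⊕ Fin m) (Fin 3),
      Decides T ((m + n) ^ (53 * Nat.log 2 (m + n))) (fun L => 500 * L ^ 7) := by
  classical
  obtain ⟨T, hT, hT'⟩ := exists_queryTree m n
  have hdepth := depth_le hm hn T hT
  set N := m + n with hN
  have hN2 : 2 ≤ N := by omega
  have hmN : m ≤ N := by omega
  set q := Nat.log 2 m + 1 with hq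
  have hmq : m < 2 ^ q := Nat.lt_pow_succ_log_self (by omega) m
  have hqm : 2 ^ q ≤ 2 * m := by
    rw [hq, pow_succ, mul_comm]
    exact Nat.mul_le_mul_left _ (Nat.pow_log_le_self 2 (by omega))
  have hbd : ∀ β, Fm.Bd (2 * (q + 1) ^ 2) (9 * 8 ^ q) (2 ^ q)
      (Fm.detF q m fun i j => (entE (m := m) (n := n) β i j).toFm) :=
    fun β => Fm.bd_detF q m _ fun i j => Ent.bd_toFm _ Nat.one_le_two_pow _
  set len := 4 ^ (2 * (q + 1) ^ 2) * (2 ^ q + 3) + 3 with hlen
  have hlen' : ∀ z β, (prog3 (m := m) (n := n) q z β).length ≤ len := by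
    intro z β
    have h1 := Fm.length_prog z (2 ^ q) _ (hbd β).2.2 false (0 : Fin 3) 1 2
    have h2 : 4 ^ (Fm.detF q m fun i j => (entE (m := m) (n := n) β i j).toFm).depth * (2 ^ q + 3) ≤
        4 ^ (2 * (q + 1) ^ 2) * (2 ^ q + 3) :=
      Nat.mul_le_mul_right _ (Nat.pow_le_pow_right (by omega) (hbd β).1)
    simp only [prog3, List.length_append, reset, List.length_cons, List.length_nil]
    omega
  set E := 2 * (q + 1) ^ 2 * (2 * (9 * 8 ^ q) + 2) + 2 with hE
  have hEb : ∀ β, Fm.bd (Fm.detF q m fun i j => (entE (m := m) (n := n) β i j).toFm) ≤ E := by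
    intro β
    have := hbd β
    unfold Fm.bd
    rw [hE]
    exact Nat.add_le_add_right (Nat.mul_le_mul this.1 (by have := this.2.1; omega)) 2
  -- the runs
  have hrun : ∀ (S : ℕ → ℝ → Prop), Size (2 ^ q) S → ∀ (A : Matrix (Fin m) (Fin n) ℝ)
      (b : Fin m → ℝ), (∀ k, S 1 (lpInput A b k)) → ∀ z : Idx m n → Bool,
      (∀ k, z k = true ↔ lpInput A b k = 0) → ∀ ρ, ∃ nums steps,
      (ofQT (prog3 (m := m) (n := n) q z) 0 (decide (Even m)) T).run (lpInput A b) ρ =
        some (T.eval (pat (m := m) (n := n) (A, b)), nums, steps) ∧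
        steps ≤ T.depth * (len + 1) ∧ ∀ v ∈ nums, S E v := by
    intro S hS A b hx z hz
    refine run_ofQT _ _ _ len (hlen' z) (lpInput A b) _ _ ?_ T
    intro β ρ
    obtain ⟨ρ1, h1, h2, h3, h4⟩ := exec_reset (x := lpInput A b) hS E ρ
    have h5 := Fm.exec_prog hS hx z hz _ (hbd β).2.2 false (0 : Fin 3) 1 2 ρ1 0 (by decide)
      (by decide) (by decide) (by rw [h2]; exact hS.zero) (by rw [h3]; exact hS.one)
      (by rw [h4]; exact hS.zero)
    refine ⟨_, h1.append (h5.mono fun v hv => hS.mono _ _ _ (by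
      have := hEb β; omega) hv), sign_of_cf A b β (m.factorial : ℝ) _ (by positivity) ?_⟩
    rw [Function.update_self, h2, h3, Fm.val_detF _ _ _ hmq]
    have : (Matrix.of fun i j => ((entE (m := m) (n := n) β i j).toFm).val (lpInput A b)) =
        xm (lpInput A b) (entE β) := by
      ext i j
      exact Ent.val_toFm _ _
    rw [this]
    simp only [Fm.sg, df]
    simp
  refine ⟨zt (Finset.univ : Finset (Idx m n)).toList (fun _ => false)
    (fun z => ofQT (prog3 (m := m) (n := n) q z) 0 (decide (Even m)) T), ?_, ?_⟩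
  · intro A b
    obtain ⟨nums, steps, h1, h2, -⟩ := hrun (fun _ _ => True) (size_true _) A b (fun _ => trivial)
      (fun k => decide (lpInput A b k = 0)) (fun k => by simp) (fun _ => 0)
    have h3 := run_zt (lpInput A b) (fun k => decide (lpInput A b k = 0)) (fun k => by simp)
      (fun z => ofQT (prog3 (m := m) (n := n) q z) 0 (decide (Even m)) T) (fun _ => 0) _ _ _ h1
      (Finset.univ : Finset (Idx m n)).toList (fun _ => false) (by simp)
    refine ⟨_, nums, _, h3, ?_, ?_⟩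
    · rw [hT' (A, b), decide_eq_true_eq]
      unfold Feas
      refine exists_congr fun x => ?_
      rw [Pi.le_def]
      rfl
    · rw [card_Idx]
      set l := Nat.log 2 N with hl
      have hl1 : 1 ≤ l := Nat.log_pos (by omega) hN2
      have hb := log_bound m n hm hn
      rw [← hN, ← hl] at hb
      have hN36 : 1 ≤ N ^ (36 * l) := Nat.one_le_pow _ _ (by omega)
      have a1 : len + 1 ≤ N ^ (36 * l) * N ^ 4 := by
        have b1 : 4 ^ (2 * (q + 1) ^ 2) * (2 ^ q + 3) ≤ N ^ (36 * l) * (2 * N + 3) :=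
          Nat.mul_le_mul hb (by omega)
        have b2 : 2 * N + 7 ≤ N ^ 4 := by
          have c1 : 2 * 2 ≤ N * N := Nat.mul_le_mul hN2 hN2
          have c2 : N ^ 4 = N * N * (N * N) := by ring
          rw [c2]
          nlinarith
        calc len + 1 = 4 ^ (2 * (q + 1) ^ 2) * (2 ^ q + 3) + 4 := by rw [hlen]
          _ ≤ N ^ (36 * l) * (2 * N + 3) + 4 := by omega
          _ ≤ N ^ (36 * l) * (2 * N + 3) + N ^ (36 * l) * 4 := by omega
          _ = N ^ (36 * l) * (2 * N + 7) := by ring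
          _ ≤ _ := Nat.mul_le_mul_left _ b2
      have a2 : m * n + m ≤ N ^ 2 := by
        have : m * (n + 1) ≤ N * N := Nat.mul_le_mul hmN (by omega)
        nlinarith
      have a3 : N ^ 2 ≤ N ^ (36 * l) * N ^ 10 := by
        calc N ^ 2 = 1 * N ^ 2 := by ring
          _ ≤ N ^ (36 * l) * N ^ 10 := Nat.mul_le_mul hN36 (Nat.pow_le_pow_right (by omega) (by omega))
      have a4 : 97 ≤ N ^ 7 := by
        calc 97 ≤ 2 ^ 7 := by norm_num
          _ ≤ N ^ 7 := Nat.pow_le_pow_left hN2 7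
      calc steps + (m * n + m) ≤ T.depth * (len + 1) + N ^ 2 := Nat.add_le_add h2 a2
        _ ≤ (96 * N ^ 6) * (N ^ (36 * l) * N ^ 4) + N ^ (36 * l) * N ^ 10 :=
            Nat.add_le_add (Nat.mul_le_mul hdepth a1) a3
        _ = 97 * (N ^ (36 * l) * N ^ 10) := by ring
        _ ≤ N ^ 7 * (N ^ (36 * l) * N ^ 10) := Nat.mul_le_mul_right _ a4
        _ = N ^ (36 * l + 17) := by ring
        _ ≤ N ^ (53 * l) := Nat.pow_le_pow_right (by omega) (by omega)
  · intro A b ans nums steps hr v hv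
    obtain ⟨S, hS, hx, hbl⟩ := size_rat A b (2 ^ q) E
    obtain ⟨nums', steps', h1, -, h3⟩ := hrun S hS _ _ hx
      (fun k => decide (lpInput (fun i j => ((A i j : ℚ) : ℝ)) (fun i => ((b i : ℚ) : ℝ)) k = 0))
      (fun k => by simp) (fun _ => 0)
    have h2 := run_zt (lpInput (fun i j => ((A i j : ℚ) : ℝ)) (fun i => ((b i : ℚ) : ℝ)))
      (fun k => decide (lpInput (fun i j => ((A i j : ℚ) : ℝ)) (fun i => ((b i : ℚ) : ℝ)) k = 0))
      (fun k => by simp)
      (fun z => ofQT (prog3 (m := m) (n := n) q z) 0 (decide (Even m)) T) (fun _ => 0) _ _ _ h1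
      (Finset.univ : Finset (Idx m n)).toList (fun _ => false) (by simp)
    have e := hr.symm.trans h2
    simp only [Option.some.injEq, Prod.mk.injEq] at e
    obtain ⟨-, rfl, -⟩ := e
    obtain ⟨q', hq1, hq2⟩ := hbl v (h3 v hv)
    refine ⟨q', hq1, hq2.trans ?_⟩
    set ℓ := inputLength A b with hℓ
    have hmℓ : 4 * m ≤ ℓ := by
      have h1 : ∀ i : Fin m, 2 ≤ bitLength (b i) := fun i => by
        unfold bitLength
        have := (b i).den_pos
        have : 0 < Nat.size (b i).den := Nat.size_pos.2 this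
        omega
      have h2 : ∀ (i : Fin m) (j : Fin n), 2 ≤ bitLength (A i j) := fun i j => by
        unfold bitLength
        have := (A i j).den_pos
        have : 0 < Nat.size (A i j).den := Nat.size_pos.2 this
        omega
      have h3 : m * 2 ≤ ∑ i, bitLength (b i) := by
        calc m * 2 = ∑ _i : Fin m, 2 := by simp
          _ ≤ ∑ i, bitLength (b i) := Finset.sum_le_sum fun i _ => h1 i
      have h4 : m * (n * 2) ≤ ∑ i, ∑ j, bitLength (A i j) := by
        calc m * (n * 2) = ∑ _i : Fin m, ∑ _j : Fin n, 2 := by simp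
          _ ≤ ∑ i, ∑ j, bitLength (A i j) :=
            Finset.sum_le_sum fun i _ => Finset.sum_le_sum fun j _ => h2 i j
      rw [hℓ, inputLength]
      nlinarith
    have hqℓ : 2 ^ q ≤ ℓ := by omega
    have hq1' : q + 1 ≤ 2 ^ q := Nat.lt_two_pow_self
    have b1 : 2 ^ q * 2 ^ q ≤ ℓ * ℓ := Nat.mul_le_mul hqℓ hqℓ
    have b0 : 4 ≤ ℓ := by omega
    have b2 : 2 * ℓ + 2 ^ q * 2 ^ q + 2 ^ q + 1 ≤ 2 * ℓ * ℓ := by nlinarith
    have b3 : E ≤ 42 * ℓ ^ 5 := by
      have c1 : (q + 1) ^ 2 ≤ ℓ ^ 2 := Nat.pow_le_pow_left (by omega) 2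
      have c2 : 8 ^ q ≤ ℓ ^ 3 := by
        have : (8 : ℕ) ^ q = (2 ^ q) ^ 3 := by
          rw [← pow_mul, mul_comm, pow_mul]
          norm_num
        rw [this]
        exact Nat.pow_le_pow_left hqℓ 3
      have c3 : 1 ≤ ℓ ^ 3 := Nat.one_le_pow _ _ (by omega)
      have c4 : 1 ≤ ℓ ^ 5 := Nat.one_le_pow _ _ (by omega)
      calc E = 2 * (q + 1) ^ 2 * (2 * (9 * 8 ^ q) + 2) + 2 := hE
        _ ≤ 2 * ℓ ^ 2 * (2 * (9 * ℓ ^ 3) + 2 * ℓ ^ 3) + 2 * ℓ ^ 5 := by
            refine Nat.add_le_add (Nat.mul_le_mul (Nat.mul_le_mul_left _ c1) ?_) (by omega)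
            omega
        _ = 42 * ℓ ^ 5 := by ring
    calc 2 * ((2 * ℓ + 2 ^ q * 2 ^ q + 2 ^ q + 1) * E) + 3
        ≤ 2 * ((2 * ℓ * ℓ) * (42 * ℓ ^ 5)) + 3 := by gcongr
      _ = 168 * ℓ ^ 7 + 3 := by ring
      _ ≤ 500 * ℓ ^ 7 := by
        have : 1 ≤ ℓ ^ 7 := Nat.one_le_pow _ _ (by omega)
        omega

end Pool.Agent.H682.RT
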